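import Pool.Agent.Helper68.SG2.Defs
import Pool.Agent.Helper66.SG.Goals

/-!
# Project SG, stage 2, module T: Taylor expansions, the norm polynomial, change of the laws, the local estimate

The proofs are those of `Pool/Agent/Helper42/SG/GoalsT.lean`, `Pool/Agent/Helper65/SG/Goals.lean`; the landed proofs can be copied and adapted.
All goals are independent (named goals may be hypotheses).  `q = 4 ^ e (h / 2)`.
-/

set_option autoImplicit false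

open MvPolynomial

namespace Pool.Agent.Helper68.SG2

open WeierstrassCurve Height
open Pool.Agent.Helper29.BL Pool.Agent.Helper92.Ru Pool.Agent.Helper42.SG
open Pool.Agent.Helper65.SG (GR gX gP sgn red NPol WD FRPO NQD NQR NQH)
open Pool.Agent.Helper66.SG (sp4)

noncomputable section

/-! ## Taylor expansions -/

/-- **TAYT**. Hypotheses allowed: TAY, FRPS (`Helper42.SG`; proved: `Pool.Agent.Helper65.SG.th_TAY`, `th_FRPS`).
PROOF. CURVE indices: TAY for the data `W' i := if T i then ⟨0,0,0,0,0⟩ else W i`, `ξ' h := if T (h % 2) then 1 else ξ h`, `ψ' h := if T (h % 2) then 2 else ψ h`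
(`2² = Bf 1` for the curve `⟨0,0,0,0,0⟩`): constant `B0`, take `X h`, `Ψ h` from there. (Our radii `1/(B v Mv v (rhoT ..)²)` are `≤` those of TAY if `B0 ≤ B`, and `NPS v r f T` is monotone: smaller radii,
larger `T`.)
`G_m` indices: `X h = C ξ + C (ξ - 1) τ_h = C ξ (1 + (1 - ψ) τ_h)` (`ψ = ξ⁻¹`), `X h - 1 = C (ξ - 1) (1 + τ_h)`, `Ψ h = C ψ * ∑_k (-(1 - ψ) τ_h)^k` (the inverse series of `X h`; e.g. the power series with the
coefficient `ψ (-(1-ψ))^k` at `single h k`, or `MvPowerSeries` inverse). Norms, `r = 1 / (B v Mv v(ψ)²)`, `B v = B0 v * cst v 4`: `|1 - ψ| r ≤ cst v 2 * Mv v(ψ) * r ≤ 1/2` (archimedean), `≤ 1` (nonarchimedean): so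
`N(X h) ≤ 2 |ξ|`, `N(Ψ h) ≤ |ψ| ∑ 2^(-k) ≤ 2 |ψ|`, `N(X h - 1) ≤ 2 |ξ - 1|` (archimedean; the norm of `τ_h` is `r ≤ 1`), without the factor `2` in the nonarchimedean case. -/
def TAYT : Prop :=
  ∀ (K : Type) [Field K] [NumberField K] (T : ℕ → Bool) (W : ℕ → Affine K) (n : ℕ),
    ∃ B : AbsoluteValue K ℝ → ℝ, PlC B ∧ ∀ ξ ψ : ℕ → K, PtT T W n ξ ψ →
      ∃ X Ψ : ℕ → MvPowerSeries (Fin (2 * n + 2)) K, TayT T W n ξ ψ X Ψ ∧
        ∀ v : AbsoluteValue K ℝ,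
          NrmT T n v (fun i : Fin (2 * n + 2) => 1 / (B v * Mv v (rhoT T ξ i.val) ^ 2)) ξ ψ X Ψ (B v)

/-- **TAYZT** (part 2). Hypotheses allowed: TAYT, FRPS.
PROOF. TAYT with `n = 0` (`Fin (2 * 0 + 2)` is `Fin 2`) for `h = 0, 1` (`h < 2`), constants `C (ξ h)`, `C (ψ h)` for `h ≥ 2`. Norms of constants: `NPS v r (C k) (v k)` (FRPS, `NFr.const`);
for a curve `v (ψ h) ≤ B'' v * Mv v (ξ h)^2` because `ψ² = Bf ξ`, `v (Bf ξ) ≤ B''' v * Mv v (ξ)^3` (EUP; `bf_le` in `Pool/Agent/Helper12/SGB/ECOEF.lean`; compare the landed TAYZ of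
`Pool.Agent.Helper11.SG`). `B` = product of the constants; enlarging `B v` makes the radii smaller, `NPS` is monotone. -/
def TAYZT : Prop :=
  ∀ (K : Type) [Field K] [NumberField K] (T : ℕ → Bool) (W : ℕ → Affine K),
    ∃ B : AbsoluteValue K ℝ → ℝ, PlC B ∧ ∀ ξ ψ : ℕ → K, PtT T W 1 ξ ψ →
      ∃ X Ψ : ℕ → MvPowerSeries (Fin 2) K, TayZT T W ξ ψ X Ψ ∧
        ∀ v : AbsoluteValue K ℝ,
          NrmT T 1 v (fun i : Fin 2 => 1 / (B v * Mv v (rhoT T ξ i.val) ^ 2)) ξ ψ X Ψ (B v)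

/-! ## The norm polynomial -/

/-- **NZFT** (nonvanishing). Hypothesis allowed: NZV (`Helper42.SG`).
PROOF. As `Helper42.SG.NZF` (landed: `Pool/Agent/Helper12/SGM/NZF.lean`): choose the values `(X_h, Ψ_h)`, `h = 0, .., 2n-1`, one after the other such that for every sign vector of length `h + 1` the partially evaluated
array is not zero. Curve variables: NZV for a finite family of nonzero arrays. `G_m` variables: the function `∑_(i < q, m ≤ M) a(i, m) x^(q m + i) x_0^(M - m)`, `x_0 = X0 (h % 2) ≠ 0`, is a non-zero polynomial in `x`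
if `a ≠ 0` (the exponents `q m + i`, `i < q`, are different), so for a finite family of nonzero arrays there is `x ≠ 0` in `Ω` (infinite) at which all are non-zero; `X_h = x`, `Ψ_h = x⁻¹` (`blk` with law `false`
does not depend on `Ψ_h`, so the signs do not matter). -/
def NZFT : Prop :=
  ∀ (K : Type) [Field K] [NumberField K] (T : ℕ → Bool) (W : ℕ → Affine K),
    (∀ i, T i = false → (W i).IsElliptic) →
    ∀ (n M δ : ℕ) (e : ℕ → ℕ) (c : Idx n M δ e → K) (Ω : Type) [Field Ω] [Algebra K Ω]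
      [IsAlgClosed Ω] (X0 Ψ0 : ℕ → Ω),
      (∀ i < 2, (T i = true → X0 i * Ψ0 i = 1) ∧
        (T i = false → Ψ0 i ^ 2 = Bf (mapW Ω W i) (X0 i))) →
      (∃ α, ∑ β : Fin 2 → Fin δ, algebraMap K Ω (c (α, β)) * ∏ i : Fin 2, X0 i.val ^ (β i).val ≠ 0) →
      ∃ X Ψ : ℕ → Ω, OnT T W n X Ψ ∧ (∀ i < 2, X (2 * n + i) = X0 i ∧ Ψ (2 * n + i) = Ψ0 i) ∧
        ∀ ε : ℕ → ℤˣ, PT T (mapW Ω W) n M δ e (fun α => algebraMap K Ω (c α)) (fun _ => false) X
          (fun h => if h < 2 * n then ((ε h : ℤ) : Ω) * Ψ h else Ψ h) ≠ 0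

/-- `P^0(X, Ψ)` over a `K`-algebra -/
def P0T {K : Type} [Field K] {A : Type} [CommRing A] [Algebra K A] (T : ℕ → Bool)
    (W : ℕ → Affine K) (n M δ : ℕ) (e : ℕ → ℕ) (c : Idx n M δ e → K) (X Ψ : ℕ → A) : A :=
  PT T (mapW A W) n M δ e (fun α => algebraMap K A (c α)) (fun _ => false) X Ψ

/-- `P^0` at the generic point with the signs `ε` -/
def PeT {K : Type} [Field K] (T : ℕ → Bool) (W : ℕ → Affine K) (n M δ : ℕ) (e : ℕ → ℕ)
    (c : Idx n M δ e → K) (ε : Fin (2 * n) → ℤˣ) : GR K n :=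
  P0T T W n M δ e c (gX K n) (sgn n ε (gP K n))

def QhT {K : Type} [Field K] (T : ℕ → Bool) (W : ℕ → Affine K) (n M δ : ℕ) (e : ℕ → ℕ)
    (c : Idx n M δ e → K) : GR K n := ∏ ε : Fin (2 * n) → ℤˣ, PeT T W n M δ e c ε

/-- **NQAT**: a crude bound for `P^0` in every norm frame in which all coordinates have norm `≤ 1` (the points need not be on the curves). As
`Helper65.SG.NQA` (landed); the `G_m` blocks are monomials in `X_h`, `X_0` and have norm `≤ 1`. -/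
def NQAT : Prop :=
  ∀ (K : Type) [Field K] [NumberField K] (T : ℕ → Bool) (W : ℕ → Affine K) (n M δ : ℕ), 1 ≤ n →
    ∃ B : AbsoluteValue K ℝ → ℝ, PlC B ∧ ∀ (e : ℕ → ℕ) (c : Idx n M δ e → K)
      (v : AbsoluteValue K ℝ) (s : ℝ) (A : Type) [CommRing A] [Algebra K A] (N : A → ℝ → Prop)
      (X Ψ : ℕ → A), NFr v N → 0 ≤ s → (∀ α, v (c α) ≤ s) → (∀ h < 2 * n + 2, N (X h) 1) →
      (∀ h < 2 * n + 2, N (Ψ h) 1) → N (P0T T W n M δ e c X Ψ) (s * B v ^ sq n e)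

/-- **NQBT**: the norm of `QhT`. As `Helper65.SG.NQB`. Assume FRPO, NQAT. -/
def NQBT : Prop :=
  ∀ (K : Type) [Field K] [NumberField K] (T : ℕ → Bool) (W : ℕ → Affine K) (n M δ : ℕ), 1 ≤ n →
    ∃ B : AbsoluteValue K ℝ → ℝ, PlC B ∧ ∀ (e : ℕ → ℕ) (c : Idx n M δ e → K)
      (v : AbsoluteValue K ℝ) (s : ℝ), 0 ≤ s → (∀ α, v (c α) ≤ s) →
      NPol v (QhT T W n M δ e c) (s ^ (4 ^ n) * B v ^ sq n e)

/-- **NQWT**: weighted degrees. As `Helper65.SG.NQW` (landed). For a `G_m` index `h < 2n` the block has degree `≤ q (M + 1) - 1 ≤ (2M + 1) q` in `X_h` and `≤ M` in `X_(2n + h % 2)`. -/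
def NQWT : Prop :=
  ∀ (K : Type) [Field K] (T : ℕ → Bool) (W : ℕ → Affine K) (n M δ : ℕ) (e : ℕ → ℕ)
    (c : Idx n M δ e → K) (h : Fin (2 * n + 2)), WD h (ddM n M δ e h.val) (QhT T W n M δ e c)

/-- **NQNT**: naturality of `P^0` under algebra homomorphisms. As `Helper65.SG.NQN` (landed). -/
def NQNT : Prop :=
  ∀ (K : Type) [Field K] (T : ℕ → Bool) (W : ℕ → Affine K) (n M δ : ℕ) (e : ℕ → ℕ)
    (c : Idx n M δ e → K) (A A' : Type) [CommRing A] [CommRing A'] [Algebra K A] [Algebra K A']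
    (φ : A →ₐ[K] A') (X Ψ : ℕ → A) (X' Ψ' : ℕ → A'),
    (∀ h < 2 * n + 2, φ (X h) = X' h ∧ φ (Ψ h) = Ψ' h) →
    φ (P0T T W n M δ e c X Ψ) = P0T T W n M δ e c X' Ψ'

/-- **NQET**: evenness; the `Ψ_h` of `G_m` indices do not occur. Assume NQNT. As `Helper65.SG.NQE` (landed). For the `G_m` indices: `P0T` does not depend on `Ψ_h` (`blk` with law `false`), so the automorphism
`Ψ_h ↦ 2 Ψ_h` of `GR K n` fixes every `PeT`, and a monomial with the exponent `k = m (inr h)` is multiplied by `2^k`, so `k = 0` (`char K = 0`). -/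
def NQET : Prop :=
  ∀ (K : Type) [Field K] [NumberField K] (T : ℕ → Bool) (W : ℕ → Affine K) (n M δ : ℕ)
    (e : ℕ → ℕ) (c : Idx n M δ e → K), ∀ m ∈ (QhT T W n M δ e c).support, ∀ h : Fin (2 * n + 2),
    Even (m (Sum.inr h)) ∧ (T (h.val % 2) = true → m (Sum.inr h) = 0)

/-- **NQVT**: evaluation of `red F`. As `Helper65.SG.NQV` (landed). -/
def NQVT : Prop :=
  ∀ (K : Type) [Field K] (T : ℕ → Bool) (W : ℕ → Affine K) (n : ℕ) (F : GR K n) (A : Type)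
    [CommRing A] [Algebra K A] (X Ψ : ℕ → A), OnT T W n X Ψ →
    (∀ m ∈ F.support, ∀ h : Fin (2 * n + 2), Even (m (Sum.inr h)) ∧
      (T (h.val % 2) = true → m (Sum.inr h) = 0)) →
    aeval (fun h : Fin (2 * n + 2) => X h.val) (red W n F) =
      aeval (Sum.elim (fun h : Fin (2 * n + 2) => X h.val) (fun h : Fin (2 * n + 2) => Ψ h.val)) F

/-- **NQT**: the norm polynomial. Assume NZFT, FRPO, NQBT, NQWT, NQNT, NQET, NQVT, NQD, NQR, NQH. As `Pool.Agent.Helper65.SG.t_NQ`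
(`Pool/Agent/Helper65/SG/NQ.lean`). `Q = red (QhT)`; at a point of the algebra `A` with `OnT`: `Q(X) = ∏_ε P^0(X, εΨ)` (for the signs `ε` of the `Ψ_h`, `h < 2n`; NQVT and NQNT; the points with signs are not
needed to satisfy `OnT`), and the factor `ε = 1` is `P^0(X, Ψ)`. NONZERO at `ξ0`: NZFT with `Ω` = algebraic closure, `Ψ0 i` a square root of `B(ξ0 i)`, resp. `(ξ0 i)⁻¹`. `Q ≠ 0`: choose `ξ0 i ≠ 0` in `K` suitably. -/
def NQT : Prop :=
  ∀ (K : Type) [Field K] [NumberField K] (T : ℕ → Bool) (W : ℕ → Affine K),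
    (∀ i, T i = false → (W i).IsElliptic) → ∀ n M δ : ℕ, 1 ≤ n → 1 ≤ M → 1 ≤ δ →
      ∃ C : ℝ, 0 ≤ C ∧ ∀ (e : ℕ → ℕ) (c : Idx n M δ e → K) (A : ℝ), c ≠ 0 → 0 ≤ A →
      (∀ α, IsIntegral ℤ (c α)) → (∀ α, NumberField.house (c α) ≤ Real.exp A) →
      ∃ Q : MvPolynomial (Fin (2 * n + 2)) K, Q ≠ 0 ∧ (∀ h, Q.degreeOf h ≤ ddM n M δ e h.val) ∧
        Real.log (PH Q) ≤ C * (sq n e + A) ∧
        (∀ ξ0 : Fin 2 → K, (∀ i : Fin 2, T i.val = true → ξ0 i ≠ 0) →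
          (∃ α, ∑ β : Fin 2 → Fin δ, c (α, β) * ∏ i : Fin 2, ξ0 i ^ (β i).val ≠ 0) →
          ∃ y : ℕ → AlgebraicClosure K, (∀ i : Fin 2, y (2 * n + i.val) =
            algebraMap K (AlgebraicClosure K) (ξ0 i)) ∧ aeval (fun h => y h.val) Q ≠ 0) ∧
        ∀ (A : Type) [CommRing A] [Algebra K A] (X Ψ : ℕ → A), OnT T W n X Ψ →
          ∃ g : A, aeval (fun h : Fin (2 * n + 2) => X h.val) Q =
            PT T (mapW A W) n M δ e (fun α => algebraMap K A (c α)) (fun _ => false) X Ψ * g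

/-- **QIXT**. As `Helper42.SG.QIX` (landed: `Pool/Agent/Helper36/SGM/QIX.lean`), with `κ_h = kapT T ξ ψ h ≠ 0` (`PtT`) instead of `4 ψ_h²`. -/
def QIXT : Prop :=
  ∀ (K : Type) [Field K] [NumberField K] (T : ℕ → Bool) (W : ℕ → Affine K) (n : ℕ)
    (ξ ψ : ℕ → K) (X Ψ : ℕ → MvPowerSeries (Fin (2 * n + 2)) K)
    (Q : MvPolynomial (Fin (2 * n + 2)) K)
    (f g : MvPowerSeries (Fin (2 * n + 2)) K) (d : Fin (2 * n + 2) → ℕ) (θ : ℝ),
    TayT T W n ξ ψ X Ψ → PtT T W n ξ ψ → (∀ h, 1 ≤ d h) →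
    aeval (fun h : Fin (2 * n + 2) => X h.val) Q = f * g →
    (∀ α, wt d α < θ → MvPowerSeries.coeff α f = 0) → IndGe d (fun h => ξ h.val) θ Q

/-- **QIX2T**. As `Pool.Agent.Helper11.SG.QIX2`, with `κ_h = kapT T ξ ψ h ≠ 0`. -/
def QIX2T : Prop :=
  ∀ (K : Type) [Field K] [NumberField K] (T : ℕ → Bool) (W : ℕ → Affine K) (ξ ψ : ℕ → K)
    (X Ψ : ℕ → MvPowerSeries (Fin 2) K) (Q : MvPolynomial (Fin 4) K)
    (p : MvPolynomial (Fin 2) K) (f g : MvPowerSeries (Fin 2) K) (β : Fin 2 →₀ ℕ),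
    TayZT T W ξ ψ X Ψ → PtT T W 1 ξ ψ →
    aeval (fun h : Fin 4 => X h.val) Q = f * g → aeval (sp4 ξ) Q ∣ p →
    coeff β (shiftP (fun i : Fin 2 => ξ i.val) p) ≠ 0 →
    ∃ α : Fin 2 →₀ ℕ, α ≤ β ∧ MvPowerSeries.coeff α f ≠ 0

/-! ## Change of the laws, the local estimate -/

/-- **LAWCT** (change of the laws at a minimal coefficient). Hypotheses allowed: RPOL, MINC.
PROOF. As `Helper42.SG.LAWC` / `LAWCG` (landed: `Pool/Agent/Helper53/SGT/LAWC.lean`). CURVE blocks with `lam h = true`: `(L^1_1)^(M-m) (L^1_2)^m (L^0_a)^M = (L^0_1)^(M-m) (L^0_2)^m (L^1_a)^M`, `(L^0_a)` invertible. `G_m` blocks with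
`lam h = true`: `X Ψ = 1` gives `blk true = blk false * Ψ^(q (M+1) - 1)` for `i < q`, `m ≤ M`, since `(q m + i) + (q (M - m + 1) - 1 - i) = q (M + 1) - 1`. So `P^lam = P^0 * g`, and the constant term of `g` is `∏_h omT h`. MINC. -/
def LAWCT : Prop :=
  ∀ (K : Type) [Field K] [NumberField K] (T : ℕ → Bool) (W : ℕ → Affine K) (n M δ : ℕ)
    (e : ℕ → ℕ) (c : Idx n M δ e → K) (ξ ψ ω : ℕ → K) (σ : Type) [Fintype σ]
    (X Ψ : ℕ → MvPowerSeries σ K) (d : σ → ℕ) (α : σ →₀ ℕ) (lam : ℕ → Bool),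
    OnT T W n X Ψ → (∀ h < 2 * n + 2, MvPowerSeries.constantCoeff (X h) = ξ h ∧
      MvPowerSeries.constantCoeff (Ψ h) = ψ h) → (∀ i, 1 ≤ d i) →
    (∀ h < 2 * n, T (h % 2) = false →
      (lawV (mapW K W) n e (fun _ => false) ξ ψ h).1 ≠ 0 ∨
      (lawV (mapW K W) n e (fun _ => false) ξ ψ h).2 ≠ 0) →
    (∀ h < 2 * n, T (h % 2) = false → (lawV (mapW K W) n e (fun _ => true) ξ ψ h).1 =
        ω h * (lawV (mapW K W) n e (fun _ => false) ξ ψ h).1 ∧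
      (lawV (mapW K W) n e (fun _ => true) ξ ψ h).2 =
        ω h * (lawV (mapW K W) n e (fun _ => false) ξ ψ h).2) →
    (∀ β, wt d β < wt d α → MvPowerSeries.coeff β (PT T (mapW _ W) n M δ e
      (fun α => algebraMap K (MvPowerSeries σ K) (c α)) (fun _ => false) X Ψ) = 0) →
    MvPowerSeries.coeff α (PT T (mapW _ W) n M δ e
      (fun α => algebraMap K (MvPowerSeries σ K) (c α)) lam X Ψ) =
    (∏ h ∈ Finset.range (2 * n), omT T M e lam ω ψ h) *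
      MvPowerSeries.coeff α (PT T (mapW _ W) n M δ e
        (fun α => algebraMap K (MvPowerSeries σ K) (c α)) (fun _ => false) X Ψ)

/-- **BNDX** (verification of the bounds `BndT` at a place). Hypothesis allowed: FRPS (`NPS v r` is a norm frame).
PROOF. Let `b' = B' v ≥ 1`, `Z h = zeT T ξ h`. Put, for `G_m` indices `h < 2n`: `a h = max (v (ξ h)) (v (ψ h))` (`≥ 1`, the product of the two is `1`), `G h = √(Mv v (Z h))`, `lam h = decide (v (ξ h) < 1)`,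
`L h = b' * max (v (ξ_0)) (v (ξ h) ^ q)` if `lam h = false` and `L h = b' * max 1 (v (ξ_0) * a h ^ q)` if `lam h = true` (`ξ_0 = ξ (2n + h % 2)`); for all other indices `a h = b' * Mv v (ξ h)`, `G h = 1`, `L h = 1`,
`lam h = decide (1 < v (ω h))`; `b = b'^2 * cst v 2`.
KEY FACT (`ξ = ξ h`, `a = a h`): `v (ξ - 1) * G ≤ cst v 2 * max 1 (v ξ)`: if `G = 1` by the triangle inequality; otherwise `G² = v ξ / v (ξ-1)²`, so `(v (ξ - 1) G)² = v ξ ≤ (max 1 (v ξ))²`.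
Law `false` (`v ξ ≥ 1`, `a = v ξ`): `N (X - 1) (b' v (ξ-1))`, `b' v (ξ - 1) ≤ b' cst v 2 a / G ≤ b a / G`; `a^q ≤ L`, `N(X_0) (b' v ξ_0)`, `b' v ξ_0 ≤ L`. Law `true` (`v ξ < 1`, `a = v ψ`): `Ψ - 1 = - (X - 1) Ψ` (`OnT`), norm
`≤ b' v (ξ-1) b' a ≤ b a / G`; `b' v ξ_0 ≤ L / a^q`, `1 ≤ L`. (If the reference index is a `G_m` index: `N (X_(2n+i)) (b' v ξ) ≤ b' Mv v ξ`.) -/
def BNDX : Prop :=
  ∀ (K : Type) [Field K] (T : ℕ → Bool) (W : ℕ → Affine K) (n : ℕ) (e : ℕ → ℕ)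
    (ξ ψ ω : ℕ → K) (σ : Type) [Fintype σ] (X Ψ : ℕ → MvPowerSeries σ K)
    (v : AbsoluteValue K ℝ) (r : σ → ℝ) (b' : ℝ), 1 ≤ b' → OnT T W n X Ψ → PtT T W n ξ ψ →
    (∀ i, 0 < r i) → NrmT T n v r ξ ψ X Ψ b' →
    ∃ (a G L : ℕ → ℝ) (lam : ℕ → Bool),
      BndT T n e lam (NPS v r) X Ψ a G L (b' ^ 2 * cst v 2) ∧
      (∀ h < 2 * n + 2, T (h % 2) = false → a h = b' * Mv v (ξ h)) ∧
      (∀ i < 2, a (2 * n + i) = b' * Mv v (ξ (2 * n + i))) ∧
      (∀ h < 2 * n, T (h % 2) = false → lam h = decide (1 < v (ω h))) ∧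
      (∀ h < 2 * n, T (h % 2) = true → G h ^ 2 = Mv v (zeT T ξ h)) ∧
      ∀ h < 2 * n, T (h % 2) = true → ∀ M : ℕ,
        a h ^ (4 ^ e (h / 2) - 1) * L h ^ M ≤ b' ^ M *
          (max (v (ξ (2 * n + h % 2))) (v (ξ h ^ (4 ^ e (h / 2)))) ^ M *
            Mv v (ξ h) ^ (4 ^ e (h / 2))) *
            (if lam h = true then v (ψ h) ^ (4 ^ e (h / 2) * (M + 1) - 1) else 1)

/-- **LOCT** (the local estimate). Hypotheses allowed: FRPS, BNDX.
PROOF. As `Helper42.SG.LOCE` / `LOCEG` (landed: `Pool/Agent/Helper32/SGM/LOCEG.lean`). BNDX with `b' = B' v`; `KeyI` in the frame `NPS v r` and the Cauchy estimate (FRPS):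
`∏_h v (omT h) * v dl * ∏ r^α ≤ s b^(2(M+3) sq) B_v^(sq) keyT`. The costs: `G_m`: last clause of BNDX (`v (omT h)` cancels: it is `v(ψ)^(q(M+1)-1)` if `lam h`, `1` otherwise). CURVE: `a_h^(2qM+q) a_0^(2M) = b'^(2qM+q+2M)
Mv(ξ)^(2qM+q) Mv(ξ_0)^(2M)`, the hypothesis to the power `M`: `Mv(ξ)^(2qM) Mv(ξ_0)^(2M) ≤ B''^(qM) max(..)^M Mv(ω)^M`, and `Mv(ω)^M = v (omT h)` or `1` (by the choice of `lam h`). The gains: `gn h = Mv v (zeT h)` (`G_m`), `gn h = b' Mv v (ξ h) ≥ Mv v (zeT h)` (curve), and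
`min` is monotone. `(a (2n) a (2n+1))^δ = b'^(2δ) (..)^δ`. All powers of `b' = B' v`, `cst v 2`, `B'' v` have exponents `≤ const * sq n e` (`sq n e ≥ q_j ≥ 1`, `sq n e ≥ n`). -/
def LOCT : Prop :=
  ∀ (K : Type) [Field K] [NumberField K] (T : ℕ → Bool) (W : ℕ → Affine K) (n M δ k0 : ℕ)
    (B B' B'' : AbsoluteValue K ℝ → ℝ), 1 ≤ n → 1 ≤ M → PlC B → PlC B' → PlC B'' →
    ∃ Bt : AbsoluteValue K ℝ → ℝ, PlC Bt ∧
    ∀ (F : MvPolynomial (Fin 2) K) (e : ℕ → ℕ) (c : Idx n M δ e → K) (ξ ψ ω : ℕ → K)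
      (σ : Type) [Fintype σ] (X Ψ : ℕ → MvPowerSeries σ K) (α : σ →₀ ℕ) (dl : K)
      (v : AbsoluteValue K ℝ) (r : σ → ℝ) (s : ℝ),
      KeyI T W n M δ k0 F e c B → OnT T W n X Ψ → PtT T W n ξ ψ → 0 ≤ s → (∀ α, v (c α) ≤ s) →
      (∀ i, 0 < r i) → aeval (fun i : Fin 2 => X (2 * n + i.val)) F = 0 →
      NrmT T n v r ξ ψ X Ψ (B' v) →
      (∀ h < 2 * n, T (h % 2) = false →
        Mv v (ξ h) ^ (2 * 4 ^ e (h / 2)) * Mv v (ξ (2 * n + h % 2)) ^ 2 ≤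
        B'' v ^ (4 ^ e (h / 2)) * max (v (lawV (mapW K W) n e (fun _ => false) ξ ψ h).1)
          (v (lawV (mapW K W) n e (fun _ => false) ξ ψ h).2) * Mv v (ω h)) →
      (∀ lam : ℕ → Bool, MvPowerSeries.coeff α (PT T (mapW _ W) n M δ e
        (fun α => algebraMap K (MvPowerSeries σ K) (c α)) lam X Ψ) =
        (∏ h ∈ Finset.range (2 * n), omT T M e lam ω ψ h) * dl) →
      v dl ≤ s * Bt v ^ (sq n e) *
        (∏ h ∈ Finset.range (2 * n), (max (v (loT T W n e ξ ψ h).1)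
          (v (loT T W n e ξ ψ h).2)) ^ M * Mv v (ξ h) ^ (4 ^ e (h / 2))) /
        (∏ j ∈ Finset.range n, (min (Mv v (zeT T ξ (2 * j))) (Mv v (zeT T ξ (2 * j + 1)))) ^
          (k0 * 4 ^ e j)) *
        (Mv v (ξ (2 * n)) * Mv v (ξ (2 * n + 1))) ^ δ *
        ∏ i : σ, (1 / r i) ^ (α i)

end

end Pool.Agent.Helper68.SG2
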