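import Pool.Agent.Helper68.SG2.GoalsC
import Pool.Agent.Helper68.SG2.GoalsT

/-!
# Project SG, stage 2, module E: sums over the places, groups, the theorems

Proofs as in `Pool/Agent/Helper92/SGE/Goals.lean`, `Pool/Agent/Helper11/SG/Goals2.lean`, `Pool/Agent/Helper42/SG/Final.lean`; the landed proofs can be copied and
adapted.  All goals are independent (named goals may be hypotheses).
-/

set_option autoImplicit false

open MvPolynomial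

namespace Pool.Agent.Helper68.SG2

open WeierstrassCurve Height Height.AdmissibleAbsValues
open Pool.Agent.Helper29.BL Pool.Agent.Helper92.Ru Pool.Agent.Helper42.SG

noncomputable section

/-- **GLOBT** (sum over the places, both parts). As `Helper92.SGE.GLOB` (landed: `Pool/Agent/Helper70/SGE/GLOB.lean`); new: general `M`, `δ`, the gains `ζ` and the numbers `ρ` of the
derivatives are separate from `ξ`. Hypothesis allowed: HTL (`Helper92.SGE`, proved). For every place of `K`: `log |dl| ≤ log (cst v (exp A)) + sq log Bt + ∑_h (M log max(|L_h|, |L'_h|) + q_h log M_v(ξ_h))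
- ∑_j k0 q_j min(log⁺|ζ_(2j)|, log⁺|ζ_(2j+1)|) + δ (log M_v(ξ_(2n)) + log M_v(ξ_(2n+1))) + ∑_i α_i (log B' + 2 log M_v(ρ_i))`; sum over the places. -/
def GLOBT : Prop :=
  ∀ (K : Type) [Field K] [NumberField K] (n M δ k0 : ℕ) (Bt B' : AbsoluteValue K ℝ → ℝ),
    PlC Bt → PlC B' → ∃ C : ℝ, 0 ≤ C ∧
    ∀ (e : ℕ → ℕ) (ξ ζ L L' hw : ℕ → K) (σ : Type) [Fintype σ] (ρ : σ → K) (α : σ →₀ ℕ)
      (dl : K) (A : ℝ), dl ≠ 0 → 0 ≤ A →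
      (∀ h < 2 * n, (L h ≠ 0 ∨ L' h ≠ 0) ∧ (L h ≠ 0 → L' h = hw h * L h) ∧
        (L h = 0 → hw h = 0)) →
      (∀ v : AbsoluteValue K ℝ, (v ∈ archAbsVal (K := K) ∨ v ∈ nonarchAbsVal (K := K)) →
        v dl ≤ cst v (Real.exp A) * Bt v ^ (sq n e) *
          (∏ h ∈ Finset.range (2 * n), (max (v (L h)) (v (L' h))) ^ M *
            Mv v (ξ h) ^ (4 ^ e (h / 2))) /
          (∏ j ∈ Finset.range n, (min (Mv v (ζ (2 * j))) (Mv v (ζ (2 * j + 1)))) ^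
            (k0 * 4 ^ e j)) *
          (Mv v (ξ (2 * n)) * Mv v (ξ (2 * n + 1))) ^ δ *
          ∏ i : σ, (B' v * Mv v (ρ i) ^ 2) ^ (α i)) →
      ∑ j ∈ Finset.range n, ((k0 : ℝ) * 4 ^ e j) *
          PS (fun v => min (Real.posLog (v (ζ (2 * j)))) (Real.posLog (v (ζ (2 * j + 1))))) ≤
        C * (sq n e + A) +
          ∑ h ∈ Finset.range (2 * n),
            (M * logHeight₁ (hw h) + (4 : ℝ) ^ e (h / 2) * logHeight₁ (ξ h)) +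
          δ * (logHeight₁ (ξ (2 * n)) + logHeight₁ (ξ (2 * n + 1))) +
          ∑ i : σ, (α i : ℝ) * (C + 2 * logHeight₁ (ρ i))

/-! ## Groups -/

/-- **FACX** (every factor is of one of the two kinds). Hypotheses allowed: GHE, GHN, NISO (`Helper29.BL`, proved: `th_ghe`, `th_ghn`, `th_niso` in `Helper29/BL/AsmG.lean`).
PROOF. Elliptic: `t = false`, GHE, `co = xc`, `cp = ps`. `W = nodal K`: `t = true`, `ψ` from NISO, `co P = (ψ P).toMul`, `cp P = (co P)⁻¹`, `H P = 2 logHeight₁ (co P)`. GHN gives `H'`, `c₀` with `GH (nodal K) H' c₀ 1` and `Pk Γ H'`, and `H' = H`: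
`|H'(P) - hx P| ≤ c₀` and `|hx P - 2 h(co P)| ≤ c` for all `P` (`1/x = u + 1/u - 2`, see the docstring of GHN and the landed proof `Pool/Agent/Helper86/BL/GHN.lean`, which contains this estimate and probably `H' = H` itself), so
`n |H'(P) - H(P)| = |H'(nP) - H(nP)| ≤ c + c₀` for all `n`. (Or prove GH and Pk for `H` directly as in the landed file.) -/
def FACX : Prop :=
  ∀ (K : Type) [Field K] [NumberField K] [DecidableEq K] (W : Affine K),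
    W.IsElliptic ∨ W = nodal K → ∀ Γ : AddSubgroup W.Point, Γ.FG →
    ∃ (t : Bool) (H : W.Point → ℝ) (co cp : W.Point → K) (c₀ : ℝ),
      Fac W t H co cp c₀ ∧ Pk Γ H

/-- scaling maps on an abelian group with a height -/
structure ScH {G : Type} [AddCommGroup G] (H : G → ℝ) (S : ℕ → G → G) : Prop where
  nonneg : ∀ x, 0 ≤ H x
  neg : ∀ x, H (-x) = H x
  tri : ∀ x y, √(H (x + y)) ≤ √(H x) + √(H y)
  zero : ∀ x, S 0 x = x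
  add : ∀ a b x, S (a + b) x = S a (S b x)
  sub : ∀ a x y, S a (x - y) = S a x - S a y
  mul : ∀ a x, H (S a x) = 4 ^ a * H x

/-- **PRD** (products). No hypotheses.
PROOF. `ScH`: `√(a² + b²)` is a norm on `ℝ²` (Minkowski: `√(H₁(x+y) + H₂(x'+y')) ≤ √((√H₁x + √H₁y)² + (√H₂x' + √H₂y')²) ≤ ..`), `H(4^e P) = 4^e H(P)` (`G_m`), `H(2^e P) = 4^e H(P)` (`Fac.mul`). `Pk`: for `B ⊂ Γ₁ × Γ₂`, `√(nrm (z - z')) ≤ κ ρ`:
`√(H_i ..) ≤ κ ρ = (κ√2) (ρ/√2)`: `Pk Γ_i` for the projections of `B` with `κ√2`, `ρ/√2`; pairs of cells: `√(nrm) ≤ √(ρ²/2 + ρ²/2) = ρ`. (The same step is in `Helper29.BL.MAINg`.) -/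
def PRD : Prop :=
  ∀ (K : Type) [Field K] [NumberField K] [DecidableEq K] (W₁ W₂ : Affine K) (t₁ t₂ : Bool)
    (H₁ : W₁.Point → ℝ) (H₂ : W₂.Point → ℝ) (co₁ cp₁ : W₁.Point → K) (co₂ cp₂ : W₂.Point → K)
    (c₀ : ℝ), Fac W₁ t₁ H₁ co₁ cp₁ c₀ → Fac W₂ t₂ H₂ co₂ cp₂ c₀ →
    ScH (nrm H₁ H₂) (sc t₁ t₂) ∧
    ∀ (Γ₁ : AddSubgroup W₁.Point) (Γ₂ : AddSubgroup W₂.Point), Pk Γ₁ H₁ → Pk Γ₂ H₂ →
      Pk (Γ₁.prod Γ₂) (nrm H₁ H₂) ∧ ∀ a, ∀ z ∈ Γ₁.prod Γ₂, sc t₁ t₂ a z ∈ Γ₁.prod Γ₂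

/-- **SEQT** (pigeonhole). No hypotheses. As `Helper42.SG.CLS`, `SEQ` (landed).
PROOF. `N` from `Pk Γ H` for `κ = 4/θ` (or `max 1 (4/θ)`). Suppose the set of the `H z`, `z ∈ Γ`, `Ex z`, is unbounded: choose `z_i ∈ Γ` with `Ex (z_i)`, `H(z_0) ≥ K`, `H(z_(i+1)) ≥ K H(z_i)`, `K ≥ 1, K0`. For `m = N n`, `R := √H(z_m)`, choose `f_i ∈ ℕ` with
`2^(f_i) √H(z_i) ∈ [R, 2R)` (`f_m = 0`), `B` = the set of the `S (f_i) (z_i)`, `i ≤ m`: differences have `√H ≤ 4R = κ ρ`, `ρ = θ R`. Among the `N n + 1` points `n + 1` are in one cell: indices `i_0 < .. < i_n`. With `x_j = z_(i_j)`, `e_j = f_(i_j) - f_(i_n) ≥ 0`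
(`√H(z_i)` increases, so `f` decreases): `S (f_i) z_i - S (f_k) z_k = S (f_k) (S (f_i - f_k) z_i - z_k)`, so `2^(f_k) √H(S (f_i - f_k) z_i - z_k) ≤ θ R ≤ θ 2^(f_k) √H(z_k)`. Contradiction to the hypothesis. -/
def SEQT : Prop :=
  ∀ (G : Type) [AddCommGroup G] (Γ : AddSubgroup G) (H : G → ℝ) (S : ℕ → G → G), ScH H S →
    (∀ a, ∀ z ∈ Γ, S a z ∈ Γ) → Pk Γ H → ∀ (Ex : G → Prop) (n : ℕ) (θ K0 : ℝ), 0 < θ →
    (∀ (x : ℕ → G) (e : ℕ → ℕ), K0 ≤ H (x 0) → (∀ j < n, K0 * H (x j) ≤ H (x (j + 1))) →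
      (∀ j < n, H (S (e j) (x j) - x n) ≤ θ ^ 2 * H (x n)) → (∀ j ≤ n, Ex (x j)) → False) →
    ∃ R : ℝ, ∀ z ∈ Γ, Ex z → H z ≤ R

/-- **FND** (nondegeneracy and heights in one factor). Hypotheses allowed: EDUP, EUP, NDG (`Helper92.SGE`, proved).
PROOF. Put `h = logHeight₁ (co P)`. Elliptic: `co = xc`, `h = hx P`, `cp = ps`: NDG and EUP as in `Helper92.SGE.pone` (NDG wants `CanH`: from `Fac` one gets `IsQuad`? it is easier to repeat the proof of NDG: if `ps P = 0`, `P ≠ 0` then `2 • P = 0` by EDUP and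
`4 H P = H (2 • P) = H 0 = 0` by `Fac.mul` with `n = 2`, `n = 0`). `G_m`: `P ≠ 0` because `hx 0 = 0 ≤ c₀` (`H 0 = 0` by `mul 0`); `co P ≠ 0, 1` by `Fac.gm`. `logHeight₁ (co P) ≤ H P + c₀`: elliptic by `near`; `G_m`: `= H P / 2`. `hx P ≤ 4 logHeight₁ (co P)` for `hx P > 2 c₀`: elliptic `hx P = logHeight₁ (co P)`;
`G_m`: `hx P ≤ H P + c₀ = 2 logHeight₁ (co P) + c₀ ≤ 2 logHeight₁ (co P) + hx P / 2`. `xc P` in terms of `co P`: `zeT`-formula. -/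
def FND : Prop :=
  ∀ (K : Type) [Field K] [NumberField K] [DecidableEq K] (W : Affine K) (t : Bool)
    (H : W.Point → ℝ) (co cp : W.Point → K) (c₀ : ℝ), Fac W t H co cp c₀ →
    (∀ P, logHeight₁ (co P) ≤ H P + c₀) ∧
    ∀ P : W.Point, 2 * c₀ < hx P → P ≠ 0 ∧ hx P ≤ 4 * logHeight₁ (co P) ∧
      (t = true → co P ≠ 0 ∧ co P ≠ 1 ∧ cp P = (co P)⁻¹ ∧ xc P = co P / (co P - 1) ^ 2) ∧
      (t = false → cp P ^ 2 = Bf W (co P) ∧ cp P ≠ 0 ∧ xc P = co P)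

/-- the values at one block variable: the points `P` (of `x_j`) and `Q` (of `x_0`), exponent `e` -/
def lo1 {K : Type} [Field K] (t : Bool) (W : Affine K) (e : ℕ) (x c ψx ψc : K) : K × K :=
  if t = true then (c, x ^ (4 ^ e)) else law W e false x c (ψx * ψc)

/-- **LAW1** (the laws at a pair of points of one factor). Hypotheses allowed: ELAW, ELOC (`Helper42.SG`, proved).
PROOF. Elliptic: `ω := xc (2^e P + Q)`, ELAW, ELOC (`2^e P + Q ≠ 0` because otherwise `H(2^e P - Q) = H(-(2 • Q)) = 4 H Q`), `co (..) = xc (2^e P - Q)`, and the case `2^e P = Q` (`xc 0 = 0`). `G_m` (`ω := 0`): `L = co Q ≠ 0`,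
`L' = co P ^ (4^e)`, `co (4^e P - Q) = co P ^ (4^e) / co Q` (`co` is multiplicative; `co 0 = 1`, `co (-Q) = (co Q)⁻¹`), so `L' = hw * L`. -/
def LAW1 : Prop :=
  ∀ (K : Type) [Field K] [NumberField K] [DecidableEq K] (W : Affine K) (t : Bool)
    (H : W.Point → ℝ) (co cp : W.Point → K) (c₀ : ℝ), Fac W t H co cp c₀ →
    ∃ E : AbsoluteValue K ℝ → ℝ, PlC E ∧ ∀ (P Q : W.Point) (e : ℕ), P ≠ 0 → Q ≠ 0 →
      H (sc1 t e P - Q) < 4 * H Q → ∃ ω : K,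
      ((lo1 t W e (co P) (co Q) (cp P) (cp Q)).1 ≠ 0 ∨
        (lo1 t W e (co P) (co Q) (cp P) (cp Q)).2 ≠ 0) ∧
      ((lo1 t W e (co P) (co Q) (cp P) (cp Q)).1 ≠ 0 →
        (lo1 t W e (co P) (co Q) (cp P) (cp Q)).2 =
          co (sc1 t e P - Q) *
            (lo1 t W e (co P) (co Q) (cp P) (cp Q)).1) ∧
      ((lo1 t W e (co P) (co Q) (cp P) (cp Q)).1 = 0 →
        co (sc1 t e P - Q) = 0) ∧
      (t = false →
        (law W e true (co P) (co Q) (cp P * cp Q)).1 =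
          ω * (law W e false (co P) (co Q) (cp P * cp Q)).1 ∧
        (law W e true (co P) (co Q) (cp P * cp Q)).2 =
          ω * (law W e false (co P) (co Q) (cp P * cp Q)).2 ∧
        ∀ v : AbsoluteValue K ℝ, Mv v (co P) ^ (2 * 4 ^ e) * Mv v (co Q) ^ 2 ≤ E v ^ (4 ^ e) *
          max (v (law W e false (co P) (co Q) (cp P * cp Q)).1)
            (v (law W e false (co P) (co Q) (cp P * cp Q)).2) * Mv v ω)

/-! ## Theorems P1 and P2 -/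

/-- **Theorem P1** for mixed factors. Assembly as `Pool.Agent.Helper92.SGE.pone`. -/
def PONET : Prop :=
  ∀ (K : Type) [Field K] [NumberField K] [DecidableEq K] (W₁ W₂ : Affine K) (t₁ t₂ : Bool)
    (H₁ : W₁.Point → ℝ) (H₂ : W₂.Point → ℝ) (co₁ cp₁ : W₁.Point → K) (co₂ cp₂ : W₂.Point → K)
    (c₀ ε : ℝ), Fac W₁ t₁ H₁ co₁ cp₁ c₀ → Fac W₂ t₂ H₂ co₂ cp₂ c₀ → 0 < ε →
    ∃ (n D : ℕ) (CI θ K0 : ℝ), 0 < θ ∧
      ∀ (x : ℕ → W₁.Point × W₂.Point) (e : ℕ → ℕ), K0 ≤ nrm H₁ H₂ (x 0) →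
        (∀ j < n, K0 * nrm H₁ H₂ (x j) ≤ nrm H₁ H₂ (x (j + 1))) →
        (∀ j < n, nrm H₁ H₂ (sc t₁ t₂ (e j) (x j) - x n) ≤ θ ^ 2 * nrm H₁ H₂ (x n)) →
        (∀ j ≤ n, ε * nrm H₁ H₂ (x j) ≤ gg (x j)) →
        ∃ j ≤ n, LowT co₁ co₂ D (CI * (nrm H₁ H₂ (x j) / nrm H₁ H₂ (x 0))) (x j)

/-- **Theorem P2** for mixed factors. Assembly as the one of `Pool.Agent.Helper42.SG.PTWO` (helper11). -/
def PTWOT : Prop :=
  ∀ (K : Type) [Field K] [NumberField K] [DecidableEq K] (W₁ W₂ : Affine K) (t₁ t₂ : Bool)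
    (H₁ : W₁.Point → ℝ) (H₂ : W₂.Point → ℝ) (co₁ cp₁ : W₁.Point → K) (co₂ cp₂ : W₂.Point → K)
    (c₀ ε CI : ℝ) (D : ℕ), Fac W₁ t₁ H₁ co₁ cp₁ c₀ → Fac W₂ t₂ H₂ co₂ cp₂ c₀ → 0 < ε →
    ∃ (D' : ℕ) (C' θ K0 : ℝ), 0 < θ ∧
      ∀ (z x₀ : W₁.Point × W₂.Point) (e : ℕ), K0 ≤ nrm H₁ H₂ z →
        K0 * nrm H₁ H₂ z ≤ nrm H₁ H₂ x₀ →
        nrm H₁ H₂ (sc t₁ t₂ e z - x₀) ≤ θ ^ 2 * nrm H₁ H₂ x₀ →
        ε * nrm H₁ H₂ z ≤ gg z → ε * nrm H₁ H₂ x₀ ≤ gg x₀ →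
        LowT co₁ co₂ D (CI * (nrm H₁ H₂ x₀ / nrm H₁ H₂ z)) x₀ → LowT co₁ co₂ D' C' z

/-- **GEO2T**: elementary facts on the two points of `PTWOT`. Hypotheses allowed: FND, PRD.
PROOF. As `Helper11.SG.GEO2`. `y = nrm z`, `t = nrm x₀`, `θ ≤ 1/8`: triangle inequality (`ScH.tri`): `(1-θ)² t ≤ 4^e y ≤ (1+θ)² t`, so `t ≤ 2·4^e y`, `4^e y ≤ 2 t`; `K0 y ≤ t` gives `4^e ≥ K0/2`. `gg z ≤ hx z.1, hx z.2` (`gg_le_left`, `gg_le_right` of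
`Helper29.BL`), so the four `hx` are `≥ ε K0 > 2 c₀`: FND for the four points: not `0`, and `ε y ≤ hx ≤ 4 logHeight₁ (co ..)`. `H₁ (sc1 t₁ e z.1 - x₀.1) ≤ nrm (..) ≤ θ² t < 4 H₁ x₀.1` because `H₁ x₀.1 ≥ hx x₀.1 - c₀ ≥ ε t - c₀ ≥ ε t / 2` and `θ² < 2 ε`. -/
def GEO2T : Prop :=
  ∀ (K : Type) [Field K] [NumberField K] [DecidableEq K] (W₁ W₂ : Affine K) (t₁ t₂ : Bool)
    (H₁ : W₁.Point → ℝ) (H₂ : W₂.Point → ℝ) (co₁ cp₁ : W₁.Point → K) (co₂ cp₂ : W₂.Point → K)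
    (c₀ ε L θ₀ : ℝ), Fac W₁ t₁ H₁ co₁ cp₁ c₀ → Fac W₂ t₂ H₂ co₂ cp₂ c₀ → 0 < ε → 0 < θ₀ →
    ∃ θ K0 : ℝ, 0 < θ ∧ θ ≤ θ₀ ∧ 0 < K0 ∧
      ∀ (z x₀ : W₁.Point × W₂.Point) (e : ℕ), K0 ≤ nrm H₁ H₂ z →
        K0 * nrm H₁ H₂ z ≤ nrm H₁ H₂ x₀ →
        nrm H₁ H₂ (sc t₁ t₂ e z - x₀) ≤ θ ^ 2 * nrm H₁ H₂ x₀ →
        ε * nrm H₁ H₂ z ≤ gg z → ε * nrm H₁ H₂ x₀ ≤ gg x₀ →
        (2 * c₀ < hx z.1 ∧ 2 * c₀ < hx z.2 ∧ 2 * c₀ < hx x₀.1 ∧ 2 * c₀ < hx x₀.2) ∧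
        (H₁ (sc1 t₁ e z.1 - x₀.1) < 4 * H₁ x₀.1 ∧ H₂ (sc1 t₂ e z.2 - x₀.2) < 4 * H₂ x₀.2) ∧
        (ε * nrm H₁ H₂ z ≤ 4 * logHeight₁ (co₁ z.1) ∧ ε * nrm H₁ H₂ z ≤ 4 * logHeight₁ (co₂ z.2)) ∧
        (ε * nrm H₁ H₂ x₀ ≤ 4 * logHeight₁ (co₁ x₀.1) ∧
          ε * nrm H₁ H₂ x₀ ≤ 4 * logHeight₁ (co₂ x₀.2)) ∧
        (nrm H₁ H₂ x₀ ≤ 2 * 4 ^ e * nrm H₁ H₂ z ∧ 4 ^ e * nrm H₁ H₂ z ≤ 2 * nrm H₁ H₂ x₀) ∧
        L ≤ (4 : ℝ) ^ e ∧ L ≤ nrm H₁ H₂ z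

/-! ## The theorem -/

/-- **CONV** (from polynomials in the coordinates `u` to polynomials in `x = u/(u-1)²`). No hypotheses.
PROOF. One variable at a time: for a polynomial `Z ≠ 0` in `(U, V)` there is `Z' ≠ 0` in `(X, V)` with `Z'(u/(u-1)², v) = 0` whenever `u ≠ 1`, `Z(u, v) = 0`. Write `Z = ∑_(k ≤ d) U^k a_k(V)`. The polynomial `R(X, V) := Res_U(Z, X (U-1)² - U)` (Mathlib `Polynomial.resultant`, formal degrees `d`, `2`) vanishes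
if the two polynomials have a common root `u`; it is not zero because for a value `v` in an algebraic closure with `Z(·, v) ≠ 0` and `x = u'/(u'-1)²` for suitable `u'`, the two roots `u'`, `1/u'` of the second polynomial are not roots of `Z(·, v)` (`X (U-1)² - U` has degree exactly `2` in `U` and the roots `u', 1/u'`).
ALTERNATIVE without resultants: `Y := Z(U, V) * (U^d Z(1/U, V))` is a polynomial `∑_k U^k c_k(V)` with `c_k = c_(2d-k)` (palindromic), so `Y = U^d P(U + 1/U, V)` with a polynomial `P ≠ 0` in two variables (`U^k + U^(-k)` is a polynomial in `U + 1/U`), `u + 1/u = 1/x + 2`, so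
`Z'(X, V) := X^N P(1/X + 2, V)` (`N = deg P`). For `u = 0`: not needed? (`u = 0` gives `x = 0`): multiply `Z'` by `X`. -/
def CONV : Prop :=
  ∀ (K : Type) [Field K] [CharZero K] (t₁ t₂ : Bool) (Z : MvPolynomial (Fin 2) K), Z ≠ 0 →
    ∃ Z' : MvPolynomial (Fin 2) K, Z' ≠ 0 ∧ ∀ u₁ u₂ : K, (t₁ = true → u₁ ≠ 1) →
      (t₂ = true → u₂ ≠ 1) →
      eval (fun i : Fin 2 => if i = 0 then u₁ else u₂) Z = 0 →
      eval (fun i : Fin 2 => if i = 0 then (if t₁ = true then u₁ / (u₁ - 1) ^ 2 else u₁)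
        else (if t₂ = true then u₂ / (u₂ - 1) ^ 2 else u₂)) Z' = 0

/-- **The theorem**: Silverman's conjecture for products of two groups, each an elliptic curve or `G_m` (assembly as
`Pool.Agent.Helper42.SG.gcdt`, with FACX, PRD, SEQT, PONET, PTWOT, FINH, CONV). -/
def GCDU : Prop :=
  ∀ (K : Type) [Field K] [NumberField K] [DecidableEq K] (W₁ W₂ : Affine K),
    (W₁.IsElliptic ∨ W₁ = nodal K) → (W₂.IsElliptic ∨ W₂ = nodal K) →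
    ∀ (Γ₁ : AddSubgroup W₁.Point) (Γ₂ : AddSubgroup W₂.Point),
    Γ₁.FG → Γ₂.FG → ∀ ε : ℝ, 0 < ε → ∃ (Z : MvPolynomial (Fin 2) K) (C : ℝ), Z ≠ 0 ∧
      ∀ z : W₁.Point × W₂.Point, z.1 ∈ Γ₁ → z.2 ∈ Γ₂ →
        eval (fun i : Fin 2 => if i = 0 then xc z.1 else xc z.2) Z ≠ 0 → gg z ≤ ε * hh z + C

end

end Pool.Agent.Helper68.SG2
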