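import Pool.Agent.Helper68.SG2.Final
import Pool.Agent.Helper92.SGE.Pre

/-!
# Project SG, stage 2: assembly of Theorem P1 for mixed factors (adaptation of `Pool.Agent.Helper92.SGE.pone`)
-/

set_option autoImplicit false

open MvPolynomial

namespace Pool.Agent.Helper68.SG2

open WeierstrassCurve Height Height.AdmissibleAbsValues
open Pool.Agent.Helper29.BL Pool.Agent.Helper92.Ru Pool.Agent.Helper42.SG
open Pool.Agent.Helper92.SGE (Wf alt alt_even alt_odd forall_lt_two_mul forall_lt_two_mul'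
  mapW_self plC_mul dd BLK CVAL MINA NUM)

noncomputable section

/-- triangle inequality -/
theorem ScH.qtr {G : Type} [AddCommGroup G] {H : G → ℝ} {S : ℕ → G → G} (hS : ScH H S)
    (e : ℕ) (x y : G) (θ : ℝ) (h0 : 0 ≤ θ) (h1 : θ ≤ 1) (h : H (S e x - y) ≤ θ ^ 2 * H y) :
    (1 - θ) ^ 2 * H y ≤ 4 ^ e * H x ∧ 4 ^ e * H x ≤ (1 + θ) ^ 2 * H y := by
  have hN : ∀ z, √(H z) ^ 2 = H z := fun z => Real.sq_sqrt (hS.nonneg z)
  have hn : √(H (S e x - y)) ≤ θ * √(H y) := by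
    have := Real.sqrt_le_sqrt h
    rwa [Real.sqrt_mul (by positivity), Real.sqrt_sq h0] at this
  have hsym : √(H (y - S e x)) ≤ θ * √(H y) := by rw [← neg_sub, hS.neg]; exact hn
  have a1 := hS.tri (S e x - y) y
  have a2 := hS.tri (y - S e x) (S e x)
  rw [sub_add_cancel] at a1 a2
  have y0 := Real.sqrt_nonneg (H y)
  have s0 := Real.sqrt_nonneg (H (S e x))
  rw [← hS.mul, ← hN (S e x), ← hN y]
  constructor
  · rw [← mul_pow]
    refine pow_le_pow_left₀ (mul_nonneg (by linarith) y0) ?_ 2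
    linarith
  · rw [← mul_pow]
    refine pow_le_pow_left₀ s0 ?_ 2
    linarith

/-- the types as a sequence -/
def Tf (t₁ t₂ : Bool) : ℕ → Bool := fun i => if i = 0 then t₁ else t₂

lemma Tf_even (t₁ t₂ : Bool) (j : ℕ) : Tf t₁ t₂ (2 * j % 2) = t₁ := by
  rw [Nat.mul_mod_right]; rfl

lemma Tf_odd (t₁ t₂ : Bool) (j : ℕ) : Tf t₁ t₂ ((2 * j + 1) % 2) = t₂ := by
  have h1 : (2 * j + 1) % 2 = 1 := by omega
  rw [h1]; rfl

section pts

variable {K : Type} [Field K] {W₁ W₂ : Affine K}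

/-- alternating coordinates -/
def cc (f : W₁.Point → K) (g : W₂.Point → K) (x : ℕ → W₁.Point × W₂.Point) : ℕ → K :=
  alt (fun j => f (x j).1) (fun j => g (x j).2)

lemma cc_even (f : W₁.Point → K) (g : W₂.Point → K) (x : ℕ → W₁.Point × W₂.Point) (j : ℕ) :
    cc f g x (2 * j) = f (x j).1 := alt_even _ _ j

lemma cc_odd (f : W₁.Point → K) (g : W₂.Point → K) (x : ℕ → W₁.Point × W₂.Point) (j : ℕ) :
    cc f g x (2 * j + 1) = g (x j).2 := alt_odd _ _ j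

lemma lawV_evenT (co₁ cp₁ : W₁.Point → K) (co₂ cp₂ : W₂.Point → K)
    (x : ℕ → W₁.Point × W₂.Point) (n : ℕ) (e : ℕ → ℕ) (l : Bool) (j : ℕ) :
    lawV (mapW K (Wf W₁ W₂)) n e (fun _ => l) (cc co₁ co₂ x) (cc cp₁ cp₂ x) (2 * j) =
      law W₁ (e j) l (co₁ (x j).1) (co₁ (x n).1) (cp₁ (x j).1 * cp₁ (x n).1) := by
  unfold lawV
  rw [mapW_self, Nat.mul_mod_right, Nat.mul_div_cancel_left _ two_pos, Nat.add_zero, cc_even,
    cc_even, cc_even, cc_even]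
  rfl

lemma lawV_oddT (co₁ cp₁ : W₁.Point → K) (co₂ cp₂ : W₂.Point → K)
    (x : ℕ → W₁.Point × W₂.Point) (n : ℕ) (e : ℕ → ℕ) (l : Bool) (j : ℕ) :
    lawV (mapW K (Wf W₁ W₂)) n e (fun _ => l) (cc co₁ co₂ x) (cc cp₁ cp₂ x) (2 * j + 1) =
      law W₂ (e j) l (co₂ (x j).2) (co₂ (x n).2) (cp₂ (x j).2 * cp₂ (x n).2) := by
  unfold lawV
  have h1 : (2 * j + 1) % 2 = 1 := by omega
  have h2 : (2 * j + 1) / 2 = j := by omega
  rw [mapW_self, h1, h2, cc_odd, cc_odd, cc_odd, cc_odd]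
  rfl

lemma loT_even (t₁ t₂ : Bool) (co₁ cp₁ : W₁.Point → K) (co₂ cp₂ : W₂.Point → K)
    (x : ℕ → W₁.Point × W₂.Point) (n : ℕ) (e : ℕ → ℕ) (j : ℕ) :
    loT (Tf t₁ t₂) (Wf W₁ W₂) n e (cc co₁ co₂ x) (cc cp₁ cp₂ x) (2 * j) =
      lo1 t₁ W₁ (e j) (co₁ (x j).1) (co₁ (x n).1) (cp₁ (x j).1) (cp₁ (x n).1) := by
  unfold loT lo1
  rw [Tf_even, lawV_evenT, Nat.mul_mod_right, Nat.mul_div_cancel_left _ two_pos, Nat.add_zero,
    cc_even, cc_even]

lemma loT_odd (t₁ t₂ : Bool) (co₁ cp₁ : W₁.Point → K) (co₂ cp₂ : W₂.Point → K)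
    (x : ℕ → W₁.Point × W₂.Point) (n : ℕ) (e : ℕ → ℕ) (j : ℕ) :
    loT (Tf t₁ t₂) (Wf W₁ W₂) n e (cc co₁ co₂ x) (cc cp₁ cp₂ x) (2 * j + 1) =
      lo1 t₂ W₂ (e j) (co₂ (x j).2) (co₂ (x n).2) (cp₂ (x j).2) (cp₂ (x n).2) := by
  unfold loT lo1
  have h1 : (2 * j + 1) % 2 = 1 := by omega
  have h2 : (2 * j + 1) / 2 = j := by omega
  rw [Tf_odd, lawV_oddT, h1, h2, cc_odd, cc_odd]

end pts

set_option maxHeartbeats 1000000 in
/-- Theorem P1 for mixed factors from its ingredients. -/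
theorem ponet (hAUX : AUX1T) (hNQ : NQT) (hQIX : QIXT) (hBL : ∀ n, BL n) (hTAY : TAYT)
    (hLAWC : LAWCT) (hLOC : LOCT) (hLAW1 : LAW1) (hFND : FND) (hPRD : PRD) (hGLOB : GLOBT)
    (hNUM : NUM) (hBLK : BLK) (hCVAL : CVAL) (hMINA : MINA) : PONET := by
  classical
  intro K _ _ _ W₁ W₂ t₁ t₂ H₁ H₂ co₁ cp₁ co₂ cp₂ c₀ ε hF₁ hF₂ hε
  -- parameters
  obtain ⟨k0, hk0⟩ : ∃ k0 : ℕ, 8 ≤ ε * k0 := by
    refine ⟨⌈8 / ε⌉₊, ?_⟩
    have h1 : 8 / ε ≤ (⌈8 / ε⌉₊ : ℝ) := Nat.le_ceil _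
    have h2 : ε * (8 / ε) = 8 := by field_simp
    calc (8 : ℝ) = ε * (8 / ε) := h2.symm
      _ ≤ _ := mul_le_mul_of_nonneg_left h1 hε.le
  obtain ⟨n, hnk⟩ : ∃ n : ℕ, 1152 * (k0 + 2) ^ 2 ≤ n := ⟨_, le_rfl⟩
  have hn : 1 ≤ n := by
    have h1 : 1 ≤ (k0 + 2) ^ 2 := Nat.one_le_pow _ _ (by omega)
    omega
  have hn' : (1 : ℝ) ≤ n := by exact_mod_cast hn
  have hc₀ : 0 ≤ c₀ := (abs_nonneg _).trans (hF₁.near 0)
  set T : ℕ → Bool := Tf t₁ t₂ with hTdef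
  obtain ⟨CA, B, hB, hCA, hA⟩ := hAUX K T (Wf W₁ W₂) n k0 hnk
  obtain ⟨B', hB', hT⟩ := hTAY K T (Wf W₁ W₂) n
  obtain ⟨E1, hE1, hL1⟩ := hLAW1 K W₁ t₁ H₁ co₁ cp₁ c₀ hF₁
  obtain ⟨E2, hE2, hL2⟩ := hLAW1 K W₂ t₂ H₂ co₂ cp₂ c₀ hF₂
  obtain ⟨hlg1, hnd1⟩ := hFND K W₁ t₁ H₁ co₁ cp₁ c₀ hF₁
  obtain ⟨hlg2, hnd2⟩ := hFND K W₂ t₂ H₂ co₂ cp₂ c₀ hF₂
  obtain ⟨hSc, -⟩ := hPRD K W₁ W₂ t₁ t₂ H₁ H₂ co₁ cp₁ co₂ cp₂ c₀ hF₁ hF₂
  obtain ⟨Bt, hBt, hLo⟩ := hLOC K T (Wf W₁ W₂) n n n k0 B B' (fun v => E1 v * E2 v) hn hn hB hB'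
    (plC_mul hE1 hE2)
  obtain ⟨CG, hCG, hG⟩ := hGLOB K n n n k0 Bt B' hBt hB'
  have hell : ∀ i, T i = false → (Wf W₁ W₂ i).IsElliptic := by
    intro i hi
    rw [hTdef] at hi
    unfold Tf at hi
    unfold Wf
    split_ifs with h0
    · rw [if_pos h0] at hi; exact (hF₁.ell hi).1
    · rw [if_neg h0] at hi; exact (hF₂.ell hi).1
  obtain ⟨CN, hCN, hN⟩ := hNQ K T (Wf W₁ W₂) hell n n n hn hn hn
  have hσ : (0 : ℝ) < 1 / (4 ^ n * (20 * n)) := by positivity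
  obtain ⟨D, CI, K1, hCI, hK1, hBk⟩ := hBLK n hn (hBL (n + 1)) K (ε / 4) (CN * (1 + CA))
    (1 / (4 ^ n * (20 * n))) (by positivity) (by positivity) hσ
  obtain ⟨K2, hK2, hNu⟩ := hNUM n k0 ε c₀ (CG * (1 + CA)) hn hε hk0 hc₀ (by positivity)
  obtain ⟨θ, hθ0, hθ1, hθ2⟩ : ∃ θ : ℝ, 0 < θ ∧ θ ≤ 1 / (10 * n) ∧ θ ≤ ε :=
    ⟨min (1 / (10 * n)) ε, lt_min (by positivity) hε, min_le_left _ _, min_le_right _ _⟩
  have hθ10 : θ ≤ 1 / 10 := by
    refine hθ1.trans ?_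
    rw [div_le_div_iff₀ (by positivity) (by norm_num)]
    linarith
  have hθn : n * θ ^ 2 ≤ 1 := by
    have h1 : θ * (10 * n) ≤ 1 := by
      rw [le_div_iff₀ (by positivity)] at hθ1
      exact hθ1
    nlinarith
  have hθε : θ ^ 2 ≤ ε / 10 := by nlinarith
  refine ⟨n, D, CI, θ, max (max K1 K2) (2 * c₀ / ε + 1), hθ0, ?_⟩
  intro x e hx0 hxs hxe hgg
  by_contra hlow
  push Not at hlow
  have hK1' := ((le_max_left _ _).trans (le_max_left _ _)).trans hx0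
  have hK2' := ((le_max_right K1 _).trans (le_max_left _ _)).trans hx0
  have hK3' := (le_max_right _ _).trans hx0
  set y : ℕ → ℝ := fun j => nrm H₁ H₂ (x j) with hy
  have hyn : ∀ j, 0 ≤ y j := fun j => hSc.nonneg _
  have hmono : ∀ j < n, y j ≤ y (j + 1) := by
    intro j hj
    have h1 := hxs j hj
    have h2 : (1 : ℝ) ≤ max (max K1 K2) (2 * c₀ / ε + 1) :=
      hK1.trans ((le_max_left _ _).trans (le_max_left _ _))
    have h3 := hyn j
    calc y j = 1 * y j := (one_mul _).symm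
      _ ≤ max (max K1 K2) (2 * c₀ / ε + 1) * y j := mul_le_mul_of_nonneg_right h2 h3
      _ ≤ _ := h1
  have hmono' : ∀ j ≤ n, y 0 ≤ y j := by
    intro j
    induction j with
    | zero => intro _; exact le_rfl
    | succ j ih => intro hj; exact (ih (by omega)).trans (hmono j (by omega))
  have htri : ∀ j < n, (1 - θ) ^ 2 * y n ≤ 4 ^ e j * y j ∧ 4 ^ e j * y j ≤ (1 + θ) ^ 2 * y n :=
    fun j hj => hSc.qtr (e j) (x j) (x n) θ hθ0.le (by linarith) (hxe j hj)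
  -- heights
  have hh1 : ∀ j ≤ n, ε * y j ≤ hx (x j).1 := fun j hj => (hgg j hj).trans (gg_le_left _)
  have hh2 : ∀ j ≤ n, ε * y j ≤ hx (x j).2 := fun j hj => (hgg j hj).trans (gg_le_right _)
  have hlarge : ∀ j ≤ n, 2 * c₀ + ε ≤ ε * y j := by
    intro j hj
    have h1 : 2 * c₀ / ε + 1 ≤ y j := hK3'.trans (hmono' j hj)
    have h2 : ε * (2 * c₀ / ε + 1) = 2 * c₀ + ε := by field_simp
    rw [← h2]
    exact mul_le_mul_of_nonneg_left h1 hε.le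
  have hP1 := fun j (hj : j ≤ n) => hnd1 (x j).1
    (by have := hh1 j hj; have := hlarge j hj; linarith)
  have hP2 := fun j (hj : j ≤ n) => hnd2 (x j).2
    (by have := hh2 j hj; have := hlarge j hj; linarith)
  have hbig : θ ^ 2 * y n < 4 * (ε * y n - c₀) := by
    have h1 := hlarge n le_rfl
    have h2 : θ ^ 2 * y n ≤ ε / 10 * y n := mul_le_mul_of_nonneg_right hθε (hyn n)
    nlinarith
  have hS1 : ∀ j < n, H₁ (sc1 t₁ (e j) (x j).1 - (x n).1) < 4 * H₁ (x n).1 := by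
    intro j hj
    have h1 := hxe j hj
    have h2 : 0 ≤ H₂ (sc1 t₂ (e j) (x j).2 - (x n).2) := hF₂.nonneg _
    have h3 : nrm H₁ H₂ (sc t₁ t₂ (e j) (x j) - x n) =
      H₁ (sc1 t₁ (e j) (x j).1 - (x n).1) + H₂ (sc1 t₂ (e j) (x j).2 - (x n).2) := rfl
    rw [h3] at h1
    have h4 : θ ^ 2 * nrm H₁ H₂ (x n) = θ ^ 2 * y n := rfl
    have h5 := abs_le.mp (hF₁.near (x n).1)
    have h6 := hh1 n le_rfl
    linarith
  have hS2 : ∀ j < n, H₂ (sc1 t₂ (e j) (x j).2 - (x n).2) < 4 * H₂ (x n).2 := by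
    intro j hj
    have h1 := hxe j hj
    have h2 : 0 ≤ H₁ (sc1 t₁ (e j) (x j).1 - (x n).1) := hF₁.nonneg _
    have h3 : nrm H₁ H₂ (sc t₁ t₂ (e j) (x j) - x n) =
      H₁ (sc1 t₁ (e j) (x j).1 - (x n).1) + H₂ (sc1 t₂ (e j) (x j).2 - (x n).2) := rfl
    rw [h3] at h1
    have h4 : θ ^ 2 * nrm H₁ H₂ (x n) = θ ^ 2 * y n := rfl
    have h5 := abs_le.mp (hF₂.near (x n).2)
    have h6 := hh2 n le_rfl
    linarith
  -- the laws
  have hom1 : ∀ j, ∃ ω : K, j < n → _ := fun j => by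
    by_cases hj : j < n
    · obtain ⟨ω, hω⟩ := hL1 (x j).1 (x n).1 (e j) (hP1 j hj.le).1 (hP1 n le_rfl).1 (hS1 j hj)
      exact ⟨ω, fun _ => hω⟩
    · exact ⟨0, fun h => absurd h hj⟩
  have hom2 : ∀ j, ∃ ω : K, j < n → _ := fun j => by
    by_cases hj : j < n
    · obtain ⟨ω, hω⟩ := hL2 (x j).2 (x n).2 (e j) (hP2 j hj.le).1 (hP2 n le_rfl).1 (hS2 j hj)
      exact ⟨ω, fun _ => hω⟩
    · exact ⟨0, fun h => absurd h hj⟩
  choose om1 hom1 using hom1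
  choose om2 hom2 using hom2
  -- the arrays
  obtain ⟨c, hc0, hcI, hcH, hKEY⟩ := hA e
  set ξ : ℕ → K := cc co₁ co₂ x with hξ
  set ψ : ℕ → K := cc cp₁ cp₂ x with hψ
  have hPt : PtT T (Wf W₁ W₂) n ξ ψ := by
    refine forall_lt_two_mul' ?_ ?_
    · intro j hj
      rw [hTdef, Tf_even, hξ, hψ, cc_even, cc_even, Nat.mul_mod_right]
      refine ⟨fun ht => ?_, fun ht => ?_⟩
      · obtain ⟨a1, a2, a3, -⟩ := (hP1 j hj).2.2.1 ht
        exact ⟨a1, a2, a3⟩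
      · obtain ⟨a1, a2, -⟩ := (hP1 j hj).2.2.2 ht
        exact ⟨a1, a2⟩
    · intro j hj
      have h1 : (2 * j + 1) % 2 = 1 := by omega
      rw [hTdef, Tf_odd, hξ, hψ, cc_odd, cc_odd, h1]
      refine ⟨fun ht => ?_, fun ht => ?_⟩
      · obtain ⟨a1, a2, a3, -⟩ := (hP2 j hj).2.2.1 ht
        exact ⟨a1, a2, a3⟩
      · obtain ⟨a1, a2, -⟩ := (hP2 j hj).2.2.2 ht
        exact ⟨a1, a2⟩
  obtain ⟨X, Ψ, hTay, hNPS⟩ := hT ξ ψ hPt
  set om : ℕ → K := alt om1 om2 with hom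
  set hw : ℕ → K := alt (fun j => co₁ (sc1 t₁ (e j) (x j).1 - (x n).1))
    (fun j => co₂ (sc1 t₂ (e j) (x j).2 - (x n).2)) with hhw
  have hlaw0 : ∀ h < 2 * n, T (h % 2) = false →
      (lawV (mapW K (Wf W₁ W₂)) n e (fun _ => false) ξ ψ h).1 ≠ 0 ∨
      (lawV (mapW K (Wf W₁ W₂)) n e (fun _ => false) ξ ψ h).2 ≠ 0 := by
    refine forall_lt_two_mul ?_ ?_
    · intro j hj ht
      rw [hTdef, Tf_even] at ht
      have h1 := (hom1 j hj).1
      unfold lo1 at h1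
      rw [ht, if_neg Bool.false_ne_true] at h1
      rw [lawV_evenT]
      exact h1
    · intro j hj ht
      rw [hTdef, Tf_odd] at ht
      have h1 := (hom2 j hj).1
      unfold lo1 at h1
      rw [ht, if_neg Bool.false_ne_true] at h1
      rw [lawV_oddT]
      exact h1
  have hlaw1 : ∀ h < 2 * n, T (h % 2) = false →
      (lawV (mapW K (Wf W₁ W₂)) n e (fun _ => true) ξ ψ h).1 =
        om h * (lawV (mapW K (Wf W₁ W₂)) n e (fun _ => false) ξ ψ h).1 ∧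
      (lawV (mapW K (Wf W₁ W₂)) n e (fun _ => true) ξ ψ h).2 =
        om h * (lawV (mapW K (Wf W₁ W₂)) n e (fun _ => false) ξ ψ h).2 := by
    refine forall_lt_two_mul ?_ ?_
    · intro j hj ht
      rw [hTdef, Tf_even] at ht
      have h1 := (hom1 j hj).2.2.2 ht
      rw [lawV_evenT, lawV_evenT, hom, alt_even]
      exact ⟨h1.1, h1.2.1⟩
    · intro j hj ht
      rw [hTdef, Tf_odd] at ht
      have h1 := (hom2 j hj).2.2.2 ht
      rw [lawV_oddT, lawV_oddT, hom, alt_odd]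
      exact ⟨h1.1, h1.2.1⟩
  have hlaw2 : ∀ h < 2 * n, ((loT T (Wf W₁ W₂) n e ξ ψ h).1 ≠ 0 ∨
      (loT T (Wf W₁ W₂) n e ξ ψ h).2 ≠ 0) ∧ ((loT T (Wf W₁ W₂) n e ξ ψ h).1 ≠ 0 →
      (loT T (Wf W₁ W₂) n e ξ ψ h).2 = hw h * (loT T (Wf W₁ W₂) n e ξ ψ h).1) ∧
      ((loT T (Wf W₁ W₂) n e ξ ψ h).1 = 0 → hw h = 0) := by
    refine forall_lt_two_mul ?_ ?_
    · intro j hj
      rw [hTdef, loT_even, hhw, alt_even]
      exact ⟨(hom1 j hj).1, (hom1 j hj).2.1, (hom1 j hj).2.2.1⟩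
    · intro j hj
      rw [hTdef, loT_odd, hhw, alt_odd]
      exact ⟨(hom2 j hj).1, (hom2 j hj).2.1, (hom2 j hj).2.2.1⟩
  -- the norm polynomial
  have hsq : (0 : ℝ) ≤ CA * sq n e := by positivity
  obtain ⟨Q, hQ0, hQd, hQh, -, hQf⟩ := hN e c (CA * sq n e) hc0 hsq hcI hcH
  obtain ⟨g, hg⟩ := hQf _ X Ψ hTay.onT
  set F : MvPowerSeries (Fin (2 * n + 2)) K := PT T (mapW _ (Wf W₁ W₂)) n n n e
      (fun α => algebraMap K (MvPowerSeries (Fin (2 * n + 2)) K) (c α)) (fun _ => false) X Ψ with hF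
  have hdd1 : ∀ i : Fin (2 * n + 2), 1 ≤ dd n e i.val := by
    intro i
    unfold dd
    split_ifs
    · exact Nat.one_le_iff_ne_zero.mpr (by positivity)
    · exact Nat.one_le_iff_ne_zero.mpr (by positivity)
  have hddM : ∀ i : Fin (2 * n + 2), ddM n n n e i.val ≤ dd n e i.val := by
    intro i
    unfold dd ddM
    split_ifs
    · exact Nat.mul_le_mul_left _ (Nat.mul_le_mul_right _ (by omega))
    · exact Nat.mul_le_mul_left _ (by nlinarith)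
  have hidx : ¬ IndGe (fun h : Fin (2 * n + 2) => dd n e h.val) (fun h => ξ h.val)
      (1 / (4 ^ n * (20 * n))) Q := by
    intro hI
    have b1 : ∀ j < n, 4 / 5 * y n ≤ 4 ^ e j * y j ∧ 4 ^ e j * y j ≤ 5 / 4 * y n := by
      intro j hj
      have h2 : 4 / 5 ≤ (1 - θ) ^ 2 := by nlinarith
      have h3 : (1 + θ) ^ 2 ≤ 5 / 4 := by nlinarith
      exact ⟨(mul_le_mul_of_nonneg_right h2 (hyn n)).trans (htri j hj).1,
        (htri j hj).2.trans (mul_le_mul_of_nonneg_right h3 (hyn n))⟩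
    have b2 : ∀ j < n, K1 * y j ≤ y (j + 1) := fun j hj =>
      le_trans (mul_le_mul_of_nonneg_right ((le_max_left _ _).trans (le_max_left _ _)) (hyn j))
        (hxs j hj)
    have b3 : ∀ j ≤ n, ε / 4 * y j ≤ logHeight₁ (ξ (2 * j)) ∧
        ε / 4 * y j ≤ logHeight₁ (ξ (2 * j + 1)) := by
      intro j hj
      rw [hξ, cc_even, cc_odd]
      have h1 := (hP1 j hj).2.1
      have h2 := (hP2 j hj).2.1
      have h3 := hh1 j hj
      have h4 := hh2 j hj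
      constructor
      · linarith
      · linarith
    have b4 : Real.log (PH Q) ≤ CN * (1 + CA) * sq n e := by
      refine hQh.trans (le_of_eq ?_)
      ring
    obtain ⟨j, hj, f, hf, hfd, hf0, hfh⟩ := hBk e y ξ Q b1 hK1' b2 b3 hQ0
      (fun h => (hQd h).trans (hddM h)) b4 hI
    refine hlow j hj ⟨f, hf, hfd, ?_, hfh⟩
    have : (fun i : Fin 2 => ξ (2 * j + i.val)) =
        fun i : Fin 2 => if i = 0 then co₁ (x j).1 else co₂ (x j).2 := by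
      funext i
      fin_cases i
      · simpa using cc_even co₁ co₂ x j
      · simpa using cc_odd co₁ co₂ x j
    rw [this] at hf0
    exact hf0
  have hne : ¬ ∀ α, wt (fun h : Fin (2 * n + 2) => dd n e h.val) α < 1 / (4 ^ n * (20 * n)) →
      MvPowerSeries.coeff α F = 0 := fun h =>
    hidx (hQIX K T (Wf W₁ W₂) n ξ ψ X Ψ Q F g _ _ hTay hPt hdd1 hg h)
  obtain ⟨α, hα, hδ, hmin⟩ := hMINA K _ _ F _ hdd1 hne
  have hcc : ∀ h < 2 * n + 2, MvPowerSeries.constantCoeff (X h) = ξ h ∧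
      MvPowerSeries.constantCoeff (Ψ h) = ψ h := by
    intro h hh
    have h1 := hTay.eqX ⟨h, hh⟩
    have h2 := hTay.cst ⟨h, hh⟩
    simp only at h1 h2
    refine ⟨?_, h2⟩
    rw [h1]
    simp
  have hlc := fun lam => hLAWC K T (Wf W₁ W₂) n n n e c ξ ψ om (Fin (2 * n + 2)) X Ψ
    (fun h : Fin (2 * n + 2) => dd n e h.val) α lam hTay.onT hcc hdd1 hlaw0 hlaw1 hmin
  have hE : ∀ v : AbsoluteValue K ℝ, ∀ h < 2 * n, T (h % 2) = false →
      Mv v (ξ h) ^ (2 * 4 ^ e (h / 2)) * Mv v (ξ (2 * n + h % 2)) ^ 2 ≤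
        (E1 v * E2 v) ^ (4 ^ e (h / 2)) *
          max (v (lawV (mapW K (Wf W₁ W₂)) n e (fun _ => false) ξ ψ h).1)
          (v (lawV (mapW K (Wf W₁ W₂)) n e (fun _ => false) ξ ψ h).2) *
          Mv v (om h) := by
    intro v
    have h1E := hE1.one_le v
    have h2E := hE2.one_le v
    refine forall_lt_two_mul ?_ ?_
    · intro j hj ht
      rw [hTdef, Tf_even] at ht
      have h1 := ((hom1 j hj).2.2.2 ht).2.2 v
      rw [lawV_evenT, hom, alt_even, hξ, cc_even, Nat.mul_mod_right,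
        Nat.mul_div_cancel_left _ two_pos, Nat.add_zero, cc_even]
      refine h1.trans ?_
      refine mul_le_mul_of_nonneg_right (mul_le_mul_of_nonneg_right ?_ ?_) (Mv_pos _ _).le
      · exact pow_le_pow_left₀ (by linarith) (by nlinarith) _
      · exact le_max_of_le_left (v.nonneg _)
    · intro j hj ht
      have a1 : (2 * j + 1) % 2 = 1 := by omega
      have a2 : (2 * j + 1) / 2 = j := by omega
      rw [hTdef, Tf_odd] at ht
      have h1 := ((hom2 j hj).2.2.2 ht).2.2 v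
      rw [lawV_oddT, hom, alt_odd, hξ, cc_odd, a1, a2, cc_odd]
      refine h1.trans ?_
      refine mul_le_mul_of_nonneg_right (mul_le_mul_of_nonneg_right ?_ ?_) (Mv_pos _ _).le
      · exact pow_le_pow_left₀ (by linarith) (by nlinarith) _
      · exact le_max_of_le_left (v.nonneg _)
  have hpos : ∀ v : AbsoluteValue K ℝ, ∀ i : Fin (2 * n + 2),
      0 < B' v * Mv v (rhoT T ξ i.val) ^ 2 := fun v i =>
    mul_pos (lt_of_lt_of_le one_pos (hB'.one_le v)) (pow_pos (Mv_pos v _) 2)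
  have hloc := fun (v : AbsoluteValue K ℝ)
      (hv : v ∈ archAbsVal (K := K) ∨ v ∈ nonarchAbsVal (K := K)) =>
    hLo 0 e c ξ ψ om (Fin (2 * n + 2)) X Ψ α (MvPowerSeries.coeff α F) v
      (fun i => 1 / (B' v * Mv v (rhoT T ξ i.val) ^ 2)) (cst v (Real.exp (CA * sq n e)))
      hKEY hTay.onT hPt (cst_pos v (Real.one_le_exp hsq)).le
      (fun α => hCVAL K (c α) _ hsq (hcI α) (hcH α) v hv)
      (fun i => one_div_pos.mpr (hpos v i)) (by simp) (hNPS v) (hE v) hlc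
  simp only [one_div_one_div] at hloc
  have hglob := hG e ξ (zeT T ξ) (fun h => (loT T (Wf W₁ W₂) n e ξ ψ h).1)
    (fun h => (loT T (Wf W₁ W₂) n e ξ ψ h).2) hw (Fin (2 * n + 2))
    (fun i => rhoT T ξ i.val) α (MvPowerSeries.coeff α F) (CA * sq n e) hδ hsq hlaw2 hloc
  have hrho : ∀ i : Fin (2 * n + 2), logHeight₁ (rhoT T ξ i.val) = logHeight₁ (ξ i.val) := by
    intro i
    unfold rhoT
    split_ifs
    · exact logHeight₁_inv _
    · rfl
  simp only [hrho] at hglob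
  -- numbers
  have hpair : ∀ j, logHeight₁ (ξ (2 * j)) + logHeight₁ (ξ (2 * j + 1)) ≤ y j + 2 * c₀ := by
    intro j
    rw [hξ, cc_even, cc_odd]
    have h1 := hlg1 (x j).1
    have h2 := hlg2 (x j).2
    have h3 : y j = H₁ (x j).1 + H₂ (x j).2 := rfl
    linarith
  refine hNu θ (y n) e y (fun j => gg (x j)) (fun h => logHeight₁ (ξ h))
    (fun h => logHeight₁ (hw h)) α hθ0.le hθ10 hθn (hK2'.trans (hmono' n le_rfl))
    (fun j hj => hK2'.trans (hmono' j hj.le)) htri (fun j hj => hgg j hj.le)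
    (fun h => zero_le_logHeight₁ _) (fun j _ => hpair j) (hpair n) ?_ hα ?_
  · intro j hj
    show logHeight₁ (hw (2 * j)) + logHeight₁ (hw (2 * j + 1)) ≤ _
    rw [hhw, alt_even, alt_odd]
    have h1 := hlg1 (sc1 t₁ (e j) (x j).1 - (x n).1)
    have h2 := hlg2 (sc1 t₂ (e j) (x j).2 - (x n).2)
    have h3 := hxe j hj
    have h4 : nrm H₁ H₂ (sc t₁ t₂ (e j) (x j) - x n) =
      H₁ (sc1 t₁ (e j) (x j).1 - (x n).1) + H₂ (sc1 t₂ (e j) (x j).2 - (x n).2) := rfl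
    have h5 : nrm H₁ H₂ (x n) = y n := rfl
    rw [h4, h5] at h3
    linarith
  · have h1 : ∀ j < n, PS (fun v => min (Real.posLog (v (zeT T ξ (2 * j))))
        (Real.posLog (v (zeT T ξ (2 * j + 1))))) = gg (x j) := by
      intro j hj
      have e1 : zeT T ξ (2 * j) = xc (x j).1 := by
        unfold zeT
        rw [hTdef, Tf_even, hξ, cc_even]
        cases ht : t₁ with
        | true => rw [if_pos rfl]; exact ((hP1 j hj.le).2.2.1 ht).2.2.2.symm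
        | false => rw [if_neg Bool.false_ne_true]; exact ((hP1 j hj.le).2.2.2 ht).2.2.symm
      have e2 : zeT T ξ (2 * j + 1) = xc (x j).2 := by
        unfold zeT
        rw [hTdef, Tf_odd, hξ, cc_odd]
        cases ht : t₂ with
        | true => rw [if_pos rfl]; exact ((hP2 j hj.le).2.2.1 ht).2.2.2.symm
        | false => rw [if_neg Bool.false_ne_true]; exact ((hP2 j hj.le).2.2.2 ht).2.2.symm
      rw [e1, e2]
      rfl
    have h1' : ∑ j ∈ Finset.range n, ((k0 : ℝ) * 4 ^ e j) *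
          PS (fun v => min (Real.posLog (v (zeT T ξ (2 * j))))
            (Real.posLog (v (zeT T ξ (2 * j + 1))))) =
        ∑ j ∈ Finset.range n, ((k0 : ℝ) * 4 ^ e j) * gg (x j) :=
      Finset.sum_congr rfl fun j hj => by rw [h1 j (Finset.mem_range.1 hj)]
    rw [h1'] at hglob
    refine hglob.trans ?_
    have h2 : CG * (sq n e + CA * sq n e) = CG * (1 + CA) * sq n e := by ring
    have h3 : ∑ i : Fin (2 * n + 2), (α i : ℝ) * (CG + 2 * logHeight₁ (ξ i.val)) ≤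
        ∑ i : Fin (2 * n + 2), (α i : ℝ) * (CG * (1 + CA) + 2 * logHeight₁ (ξ i.val)) := by
      refine Finset.sum_le_sum fun i _ => mul_le_mul_of_nonneg_left ?_ (Nat.cast_nonneg _)
      nlinarith
    rw [h2]
    linarith

end

end Pool.Agent.Helper68.SG2
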