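import Pool.Agent.Helper42.SG.GoalsG
import Pool.Agent.Helper76.SGC.Goals
import Pool.Agent.Helper65.SG.Goals
import Pool.Agent.Helper29.BL.GoalsF

/-!
# Project SG, stage 2 (MP_a41896_nt): factors which are elliptic curves or multiplicative groups

The index conventions are those of `Pool.Agent.Helper42.SG.Defs`: variables `h < 2n` belong to the points
`x_1, .., x_n` (point `h / 2`, factor `h % 2`), variables `2n, 2n+1` to the reference point `x_0`, and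
`q_h = 4 ^ e (h / 2)`.  The new datum is `T : ℕ → Bool`: `T i = true` means that the factor `i` is `G_m` (and then `W i`
plays no role), `T i = false` that it is the curve `W i`.

For a variable of type `G_m`: `X h = u` is the coordinate of `G_m`, `Ψ h = 1 / u`, and the functions of the block are
`u^i (u^q)^m u_0^(M - m)`, `i < q`, `m ≤ M` (`u_0 = X (2n + h % 2)`); law `true` is the same function multiplied by
`u^-(q (M+1) - 1)`.
-/

set_option autoImplicit false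

open MvPolynomial

namespace Pool.Agent.Helper68.SG2

open WeierstrassCurve Height
open Pool.Agent.Helper29.BL Pool.Agent.Helper92.Ru Pool.Agent.Helper42.SG
open Pool.Agent.Helper76.SGC (hz ho)
open Pool.Agent.Helper77.SGC (N0)

noncomputable section

/-! ## The auxiliary functions -/

section aux

variable {A : Type} [CommRing A]

/-- `(X_h, Ψ_h)`, `h < 2n + 2`, are points over `A` -/
def OnT {K : Type} [Field K] {A : Type} [CommRing A] [Algebra K A] (T : ℕ → Bool)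
    (W : ℕ → Affine K) (n : ℕ) (X Ψ : ℕ → A) : Prop :=
  ∀ h < 2 * n + 2, (T (h % 2) = true → X h * Ψ h = 1) ∧
    (T (h % 2) = false → Ψ h ^ 2 = Bf (mapW A W (h % 2)) (X h))

/-- the function of the variable `h < 2n` with the indices `i < 4 ^ e (h / 2)`, `m ≤ M` -/
def blk (T : ℕ → Bool) (W : ℕ → WeierstrassCurve A) (n M : ℕ) (e : ℕ → ℕ) (lam : ℕ → Bool)
    (X Ψ : ℕ → A) (h i m : ℕ) : A :=
  if T (h % 2) = true then
    (if lam h = true then Ψ h ^ (4 ^ e (h / 2) * (M - m + 1) - 1 - i)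
      else X h ^ (4 ^ e (h / 2) * m + i)) * X (2 * n + h % 2) ^ (M - m)
  else X h ^ i * ((lawV W n e lam X Ψ h).1 ^ (M - m) * (lawV W n e lam X Ψ h).2 ^ m)

/-- the function `P^λ` -/
def PT (T : ℕ → Bool) (W : ℕ → WeierstrassCurve A) (n M δ : ℕ) (e : ℕ → ℕ)
    (c : Idx n M δ e → A) (lam : ℕ → Bool) (X Ψ : ℕ → A) : A :=
  ∑ α : Idx n M δ e, c α *
    (∏ h : Fin (2 * n), blk T W n M e lam X Ψ h.val (α.1 h).1.val (α.1 h).2.val) *
    ∏ i : Fin 2, X (2 * n + i.val) ^ (α.2 i).val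

/-- the basis in which the functions of a variable are expanded: powers of `u - 1` (law `true`: of `1/u - 1`) for
`G_m`, `η^μ X^j` for a curve -/
def bas (T : ℕ → Bool) (n : ℕ) (lam : ℕ → Bool) (X Ψ : ℕ → A) (h : ℕ) (μ : Fin 2) (j : ℕ) : A :=
  if T (h % 2) = true then (if lam h = true then (Ψ h - 1) ^ j else (X h - 1) ^ j)
  else (Ψ h * Ψ (2 * n + h % 2)) ^ μ.val * X h ^ j

end aux

/-! ## Coefficient arrays, conditions -/

section arrays

variable {K : Type} [Field K]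

/-- the coefficients of all the blocks: `S h l μ j g i m` is the coefficient of `bas h μ j * X_0^g` in `blk h i m` (law `l`);
`N0 M e = 2 * 4^e * M + 4^e` -/
structure ArrT (T : ℕ → Bool) (W : ℕ → Affine K) (B : ℕ → AbsoluteValue K ℝ → ℝ) (D : ℕ → ℕ)
    (n M : ℕ) (e : ℕ → ℕ) (S : ℕ → Bool → Fin 2 → ℕ → ℕ → ℕ → ℕ → K) : Prop where
  degG : ∀ h < 2 * n, T (h % 2) = true → ∀ l μ j g i m, S h l μ j g i m ≠ 0 →
    μ = 0 ∧ g ≤ M ∧ (l = false → j + 4 ^ e (h / 2) * g < 4 ^ e (h / 2) * (M + 1)) ∧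
      (l = true → j < 4 ^ e (h / 2) * (g + 1))
  degE : ∀ h < 2 * n, T (h % 2) = false → ∀ l μ j g i m, S h l μ j g i m ≠ 0 →
    j + 2 * μ.val ≤ N0 M (e (h / 2)) ∧ g + 2 * μ.val ≤ 2 * M
  bd : ∀ h < 2 * n, ∀ l μ j g i m v, v (S h l μ j g i m) ≤ B (h % 2) v ^ (4 ^ e (h / 2) * (M + 1))
  int : ∀ h < 2 * n, ∀ l μ j g i m,
    IsIntegral ℤ ((D (h % 2) : K) ^ (4 ^ e (h / 2) * (M + 1)) * S h l μ j g i m)
  exp : ∀ h < 2 * n, ∀ i m, i < 4 ^ e (h / 2) → m ≤ M → ∀ (A : Type) [CommRing A] [Algebra K A]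
    (X Ψ : ℕ → A) (lam : ℕ → Bool), OnT T W n X Ψ →
    blk T (mapW A W) n M e lam X Ψ h i m =
      ∑ μ : Fin 2, ∑ j ∈ Finset.range (N0 M (e (h / 2)) + 1), ∑ g ∈ Finset.range (2 * M + 1),
        algebraMap K A (S h (lam h) μ j g i m) *
          (bas T n lam X Ψ h μ j * X (2 * n + h % 2) ^ g)

/-- the indices of the variable `h`: `Idx n M δ e = (∀ h, AxM n M e h) × (Fin 2 → Fin δ)` -/
abbrev AxM (n M : ℕ) (e : ℕ → ℕ) (h : Fin (2 * n)) : Type :=
  Fin (4 ^ e (h.val / 2)) × Fin (M + 1)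

/-- the coefficient of `bas μ j * X_0^g` in `blk i m * X_0^β` -/
def sgT (S : Bool → Fin 2 → ℕ → ℕ → ℕ → ℕ → K) (l : Bool) (μ : Fin 2) (j g i m β : ℕ) : K :=
  if β ≤ g then S l μ j (g - β) i m else 0

/-- the drop of an index: the order of vanishing at the origin (twice, for a curve) -/
def drop (t : Bool) (M e : ℕ) (μ : Fin 2) (j : ℕ) : ℕ :=
  if t = true then j else 2 * (N0 M e - (j + 2 * μ.val))

/-- the forbidden pairs of indices of a block -/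
def ForbT (T : ℕ → Bool) (M k0 e : ℕ) (μ μ' : Fin 2) (j j' : ℕ) : Prop :=
  (T 0 = false → j + 2 * μ.val ≤ N0 M e) ∧ (T 1 = false → j' + 2 * μ'.val ≤ N0 M e) ∧
    drop (T 0) M e μ j + drop (T 1) M e μ' j' < 2 * k0 * 4 ^ e

/-- the conditions on `c` (`F = 0` in part 1; in part 2 the point `x_0` is on the curve `F = 0`) -/
def CondT (T : ℕ → Bool) (n M δ k0 : ℕ) (F : MvPolynomial (Fin 2) K) (e : ℕ → ℕ)
    (S : ℕ → Bool → Fin 2 → ℕ → ℕ → ℕ → ℕ → K) (c : Idx n M δ e → K) : Prop :=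
  ∀ (j : Fin n) (α0 : ∀ h, AxM n M e h) (l l' : Bool) (μ μ' : Fin 2) (i i' : ℕ),
    ForbT T M k0 (e j.val) μ μ' i i' →
    F ∣ ∑ g ∈ Finset.range (2 * M + δ), ∑ g' ∈ Finset.range (2 * M + δ),
      C (∑ x : AxM n M e (hz j), ∑ x' : AxM n M e (ho j), ∑ β : Fin 2 → Fin δ,
        c (Function.update (Function.update α0 (hz j) x) (ho j) x', β) *
          (sgT (S (2 * j.val)) l μ i g x.1.val x.2.val (β 0).val *
            sgT (S (2 * j.val + 1)) l' μ' i' g' x'.1.val x'.2.val (β 1).val)) *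
        (X 0 ^ g * X 1 ^ g')

/-- the coefficient of `∏_h bas h (μ_h) (i_h)` in `P^λ`, a polynomial in `X_(2n), X_(2n+1)` -/
def BrT {A : Type} [CommRing A] [Algebra K A] (n M δ : ℕ) (e : ℕ → ℕ)
    (S : ℕ → Bool → Fin 2 → ℕ → ℕ → ℕ → ℕ → K) (c : Idx n M δ e → K) (lam : ℕ → Bool) (X : ℕ → A)
    (μ : Fin (2 * n) → Fin 2) (i : Fin (2 * n) → ℕ) : A :=
  ∑ α : Idx n M δ e, algebraMap K A (c α) *
    (∏ h : Fin (2 * n), ∑ g ∈ Finset.range (2 * M + 1),
      algebraMap K A (S h.val (lam h.val) (μ h) (i h) g (α.1 h).1.val (α.1 h).2.val) *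
        X (2 * n + h.val % 2) ^ g) *
    ∏ t : Fin 2, X (2 * n + t.val) ^ (α.2 t).val

end arrays

/-! ## Bounds, the key inequality -/

section key

/-- bounds in a norm frame. `a h ≥ 1` bounds the coordinates, `b` is a constant of the place, `G h ≥ 1` is the gain
(`G_m`: `|u - 1| ≤ b a / G`), `L h` bounds `max(|u|^q, |u_0|)` (law `false`), resp. `max(1, |u_0| / |u|^q)` (law `true`). -/
structure BndT {A : Type} [CommRing A] (T : ℕ → Bool) (n : ℕ) (e : ℕ → ℕ) (lam : ℕ → Bool)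
    (N : A → ℝ → Prop) (X Ψ : ℕ → A) (a G L : ℕ → ℝ) (b : ℝ) : Prop where
  one_b : 1 ≤ b
  one_a : ∀ h < 2 * n + 2, 1 ≤ a h
  one_G : ∀ h < 2 * n, 1 ≤ G h
  ref : ∀ i < 2, N (X (2 * n + i)) (a (2 * n + i))
  ellX : ∀ h < 2 * n, T (h % 2) = false → N (X h) (a h)
  ellP : ∀ h < 2 * n + 2, T (h % 2) = false → N (Ψ h) (b * a h ^ 2)
  gmF : ∀ h < 2 * n, T (h % 2) = true → lam h = false → N (X h - 1) (b * a h / G h) ∧
    N (X (2 * n + h % 2)) (L h) ∧ a h ^ (4 ^ e (h / 2)) ≤ L h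
  gmT : ∀ h < 2 * n, T (h % 2) = true → lam h = true → N (Ψ h - 1) (b * a h / G h) ∧
    N (X (2 * n + h % 2)) (L h / a h ^ (4 ^ e (h / 2))) ∧ 1 ≤ L h

/-- the bound of a basis element -/
def basB (T : ℕ → Bool) (n : ℕ) (a G : ℕ → ℝ) (b : ℝ) (h : ℕ) (μ : Fin 2) (j : ℕ) : ℝ :=
  if T (h % 2) = true then (b * a h / G h) ^ j
  else (b * a h ^ 2 * (b * a (2 * n + h % 2) ^ 2)) ^ μ.val * a h ^ j

/-- the bound of the corresponding polynomial in `X_0` -/
def RfB (T : ℕ → Bool) (n M : ℕ) (e : ℕ → ℕ) (a L : ℕ → ℝ) (h : ℕ) (μ : Fin 2) (j : ℕ) : ℝ :=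
  if T (h % 2) = true then a h ^ (4 ^ e (h / 2) - 1) * L h ^ M / a h ^ j
  else a (2 * n + h % 2) ^ (2 * M - 2 * μ.val)

/-- the cost of a variable -/
def cost (T : ℕ → Bool) (n M : ℕ) (e : ℕ → ℕ) (a L : ℕ → ℝ) (h : ℕ) : ℝ :=
  if T (h % 2) = true then a h ^ (4 ^ e (h / 2) - 1) * L h ^ M
  else a h ^ (2 * 4 ^ e (h / 2) * M + 4 ^ e (h / 2)) * a (2 * n + h % 2) ^ (2 * M)

/-- the gain of a variable -/
def gn (T : ℕ → Bool) (a G : ℕ → ℝ) (h : ℕ) : ℝ := if T (h % 2) = true then G h ^ 2 else a h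

/-- the bound in the key inequality -/
def keyT (T : ℕ → Bool) (n M δ k0 : ℕ) (e : ℕ → ℕ) (a G L : ℕ → ℝ) : ℝ :=
  (∏ j ∈ Finset.range n, (cost T n M e a L (2 * j) * cost T n M e a L (2 * j + 1) /
    (min (gn T a G (2 * j)) (gn T a G (2 * j + 1))) ^ (k0 * 4 ^ e j))) *
    (a (2 * n) * a (2 * n + 1)) ^ δ

/-- the key inequality in every norm frame, for every law vector -/
def KeyI {K : Type} [Field K] (T : ℕ → Bool) (W : ℕ → Affine K) (n M δ k0 : ℕ)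
    (F : MvPolynomial (Fin 2) K) (e : ℕ → ℕ) (c : Idx n M δ e → K)
    (B : AbsoluteValue K ℝ → ℝ) : Prop :=
  ∀ (v : AbsoluteValue K ℝ) (A : Type) [CommRing A] [Algebra K A] (N : A → ℝ → Prop), NFr v N →
    ∀ (X Ψ : ℕ → A) (a G L : ℕ → ℝ) (s b : ℝ) (lam : ℕ → Bool), OnT T W n X Ψ →
      BndT T n e lam N X Ψ a G L b → (∀ α, v (c α) ≤ s) →
      aeval (fun i : Fin 2 => X (2 * n + i.val)) F = 0 →
      N (PT T (mapW A W) n M δ e (fun α => algebraMap K A (c α)) lam X Ψ)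
        (s * b ^ (2 * (M + 3) * sq n e) * B v ^ sq n e * keyT T n M δ k0 e a G L)

end key

/-! ## Taylor expansions, the values at the point -/

section taylor

variable {K : Type} [Field K]

/-- `κ_h`: `X_h = ξ_h + κ_h τ_h` -/
def kapT (T : ℕ → Bool) (ξ ψ : ℕ → K) (h : ℕ) : K :=
  if T (h % 2) = true then ξ h - 1 else 4 * ψ h ^ 2

/-- the number whose height is the cost of a derivative -/
def rhoT (T : ℕ → Bool) (ξ : ℕ → K) (h : ℕ) : K := if T (h % 2) = true then (ξ h)⁻¹ else ξ h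

/-- `x`-coordinate of the point: `u / (u-1)²`, resp. `x` -/
def zeT (T : ℕ → Bool) (ξ : ℕ → K) (h : ℕ) : K :=
  if T (h % 2) = true then ξ h / (ξ h - 1) ^ 2 else ξ h

/-- the two components of the law (`false`) at the point: `(u_0, u^q)`, resp. `L^0` -/
def loT (T : ℕ → Bool) (W : ℕ → Affine K) (n : ℕ) (e : ℕ → ℕ) (ξ ψ : ℕ → K) (h : ℕ) : K × K :=
  if T (h % 2) = true then (ξ (2 * n + h % 2), ξ h ^ (4 ^ e (h / 2)))
  else lawV (mapW K W) n e (fun _ => false) ξ ψ h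

/-- the factor between the laws -/
def omT (T : ℕ → Bool) (M : ℕ) (e : ℕ → ℕ) (lam : ℕ → Bool) (ω ψ : ℕ → K) (h : ℕ) : K :=
  if lam h = true then
    (if T (h % 2) = true then ψ h ^ (4 ^ e (h / 2) * (M + 1) - 1) else ω h ^ M) else 1

/-- points in `K` -/
def PtT (T : ℕ → Bool) (W : ℕ → Affine K) (n : ℕ) (ξ ψ : ℕ → K) : Prop :=
  ∀ h < 2 * n + 2, (T (h % 2) = true → ξ h ≠ 0 ∧ ξ h ≠ 1 ∧ ψ h = (ξ h)⁻¹) ∧
    (T (h % 2) = false → ψ h ^ 2 = Bf (W (h % 2)) (ξ h) ∧ ψ h ≠ 0)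

/-- `(X, Ψ)` is the Taylor expansion of the point `(ξ, ψ)` -/
structure TayT (T : ℕ → Bool) (W : ℕ → Affine K) (n : ℕ) (ξ ψ : ℕ → K)
    (X Ψ : ℕ → MvPowerSeries (Fin (2 * n + 2)) K) : Prop where
  onT : OnT T W n X Ψ
  eqX : ∀ h : Fin (2 * n + 2), X h.val =
    MvPowerSeries.C (ξ h.val) + MvPowerSeries.C (kapT T ξ ψ h.val) * MvPowerSeries.X h
  cst : ∀ h : Fin (2 * n + 2), MvPowerSeries.constantCoeff (Ψ h.val) = ψ h.val

/-- Taylor expansion at `z` (variables `0, 1`); the coordinates of `x_0` (variables `2, 3`) are constants -/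
structure TayZT (T : ℕ → Bool) (W : ℕ → Affine K) (ξ ψ : ℕ → K)
    (X Ψ : ℕ → MvPowerSeries (Fin 2) K) : Prop where
  onT : OnT T W 1 X Ψ
  eqX : ∀ h : Fin 2, X h.val =
    MvPowerSeries.C (ξ h.val) + MvPowerSeries.C (kapT T ξ ψ h.val) * MvPowerSeries.X h
  cst : ∀ h : Fin 2, MvPowerSeries.constantCoeff (Ψ h.val) = ψ h.val
  cX : ∀ i < 2, X (2 + i) = MvPowerSeries.C (ξ (2 + i))
  cP : ∀ i < 2, Ψ (2 + i) = MvPowerSeries.C (ψ (2 + i))

/-- the norms of a Taylor expansion -/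
def NrmT (T : ℕ → Bool) (n : ℕ) (v : AbsoluteValue K ℝ) {σ : Type} (r : σ → ℝ) (ξ ψ : ℕ → K)
    (X Ψ : ℕ → MvPowerSeries σ K) (b : ℝ) : Prop :=
  ∀ h < 2 * n + 2,
    (T (h % 2) = true → NPS v r (X h) (b * v (ξ h)) ∧ NPS v r (Ψ h) (b * v (ψ h)) ∧
      NPS v r (X h - 1) (b * v (ξ h - 1))) ∧
    (T (h % 2) = false → NPS v r (X h) (b * Mv v (ξ h)) ∧ NPS v r (Ψ h) (b * Mv v (ξ h) ^ 2))

end taylor

/-! ## The two kinds of groups -/

section groups

variable {K : Type} [Field K] [NumberField K] [DecidableEq K]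

/-- A factor of type `t` (`true`: `G_m`, `false`: elliptic curve) with its height `H`, its coordinate `co` (`u`, resp. `x`)
and its second coordinate `cp` (`1/u`, resp. `ψ`). -/
structure Fac (W : Affine K) (t : Bool) (H : W.Point → ℝ) (co cp : W.Point → K) (c₀ : ℝ) :
    Prop where
  nonneg : ∀ P, 0 ≤ H P
  neg : ∀ P, H (-P) = H P
  tri : ∀ P Q, √(H (P + Q)) ≤ √(H P) + √(H Q)
  mul : ∀ (n : ℕ) P, H (n • P) = (n : ℝ) ^ (if t = true then 1 else 2) * H P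
  near : ∀ P, |H P - hx P| ≤ c₀
  ell : t = false → W.IsElliptic ∧ ∀ P, co P = xc P ∧ cp P = ps P
  gm : t = true → (∀ P Q, co (P + Q) = co P * co Q) ∧ (∀ P, co P ≠ 0 ∧ cp P = (co P)⁻¹) ∧
    (∀ P, P ≠ 0 → co P ≠ 1 ∧ xc P = co P / (co P - 1) ^ 2) ∧ ∀ P, H P = 2 * logHeight₁ (co P)

/-- the scaling: multiplication by `4^e` (`G_m`), resp. `2^e` (elliptic curve); `H (sc1 t e P) = 4^e H P` -/
def sc1 {G : Type} [AddCommGroup G] (t : Bool) (e : ℕ) (P : G) : G :=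
  (if t = true then 4 ^ e else 2 ^ e) • P

/-- the scaling of pairs -/
def sc {G G' : Type} [AddCommGroup G] [AddCommGroup G'] (t t' : Bool) (e : ℕ) (z : G × G') :
    G × G' := (sc1 t e z.1, sc1 t' e z.2)

/-- `(co z.1, co' z.2)` is on an irreducible curve of degrees `≤ D` and height `≤ A` -/
def LowT {W₁ W₂ : Affine K} (co : W₁.Point → K) (co' : W₂.Point → K) (D : ℕ) (A : ℝ)
    (z : W₁.Point × W₂.Point) : Prop :=
  ∃ f : MvPolynomial (Fin 2) K, Irreducible f ∧ (∀ e, f.degreeOf e ≤ D) ∧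
    eval (fun e : Fin 2 => if e = 0 then co z.1 else co' z.2) f = 0 ∧ Real.log (PH f) ≤ A

end groups

end

end Pool.Agent.Helper68.SG2
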