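import Pool.Agent.Helper68.SG2.GoalsE
import Pool.Agent.Helper29.BL.PS

/-!
# Project SG, stage 2: the final assembly (`GCDU` from `FACX`, `PRD`, `SEQT`, `PONET`, `PTWOT`, `FINH`, `CONV`)
-/

set_option autoImplicit false

open MvPolynomial

namespace Pool.Agent.Helper68.SG2

open WeierstrassCurve Height Height.AdmissibleAbsValues
open Pool.Agent.Helper29.BL Pool.Agent.Helper92.Ru Pool.Agent.Helper42.SG

noncomputable section

theorem Fac.mono {K : Type} [Field K] [NumberField K] [DecidableEq K] {W : Affine K} {t : Bool}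
    {H : W.Point → ℝ} {co cp : W.Point → K} {c c' : ℝ} (h : Fac W t H co cp c) (hc : c ≤ c') :
    Fac W t H co cp c' :=
  ⟨h.nonneg, h.neg, h.tri, h.mul, fun P => (h.near P).trans hc, h.ell, h.gm⟩

theorem ScH.H_zero {G : Type} [AddCommGroup G] {H : G → ℝ} {S : ℕ → G → G} (h : ScH H S) :
    H 0 = 0 := by
  have h1 := h.sub 1 0 0
  rw [sub_self] at h1
  have h2 := h.mul 1 0
  have h3 : S 1 0 = 0 := by rw [h1, sub_self]
  rw [h3] at h2
  linarith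

/-- the elementary part: from `S(E_0) x_0`, `S(E_j) x_j` near `x_n` to `S(E_0 - E_j) x_0` near `x_j` -/
theorem near_stepT {G : Type} [AddCommGroup G] {H : G → ℝ} {S : ℕ → G → G} (hS : ScH H S)
    {x0 xj xn : G} {E0 Ej : ℕ} {θ : ℝ} (hθ0 : 0 < θ) (hθ : θ ≤ 1 / 4) (hn : 0 < √(H xn))
    (h0 : √(H (S E0 x0 - xn)) ≤ θ * √(H xn)) (hj : √(H (S Ej xj - xn)) ≤ θ * √(H xn))
    (h4 : 4 * √(H x0) ≤ √(H xj)) :
    Ej ≤ E0 ∧ √(H (S (E0 - Ej) x0 - xj)) ≤ 4 * θ * √(H xj) := by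
  have hN0 : ∀ x, 0 ≤ √(H x) := fun x => Real.sqrt_nonneg _
  have hmul : ∀ (k : ℕ) (x : G), √(H (S k x)) = 2 ^ k * √(H x) := by
    intro k x
    rw [hS.mul, Real.sqrt_mul (by positivity)]
    congr 1
    rw [show (4 : ℝ) ^ k = (2 ^ k) ^ 2 by rw [← pow_mul, mul_comm k 2, pow_mul]; norm_num]
    exact Real.sqrt_sq (by positivity)
  have htri := hS.tri
  have hsym : ∀ x y, √(H (x - y)) = √(H (y - x)) := fun x y => by rw [← neg_sub, hS.neg]
  have a1 : 2 ^ Ej * √(H xj) ≤ (1 + θ) * √(H xn) := by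
    have := htri (S Ej xj - xn) xn
    rw [sub_add_cancel, hmul] at this
    linarith
  have a2 : (1 - θ) * √(H xn) ≤ 2 ^ Ej * √(H xj) := by
    have := htri (xn - S Ej xj) (S Ej xj)
    rw [sub_add_cancel, hmul, hsym] at this
    linarith
  have a3 : (1 - θ) * √(H xn) ≤ 2 ^ E0 * √(H x0) := by
    have := htri (xn - S E0 x0) (S E0 x0)
    rw [sub_add_cancel, hmul, hsym] at this
    linarith
  have hle : Ej ≤ E0 := by
    by_contra hlt
    have hlt' : E0 < Ej := not_le.1 hlt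
    have hp : (2 : ℝ) ^ E0 ≤ 2 ^ Ej := pow_le_pow_right₀ (by norm_num) hlt'.le
    have h5 : (2 : ℝ) ^ E0 * (4 * √(H x0)) ≤ 2 ^ Ej * √(H xj) :=
      mul_le_mul hp h4 (by have := hN0 x0; positivity) (by positivity)
    nlinarith
  refine ⟨hle, ?_⟩
  have b1 : √(H (S E0 x0 - S Ej xj)) ≤ 2 * θ * √(H xn) := by
    have := htri (S E0 x0 - xn) (xn - S Ej xj)
    rw [sub_add_sub_cancel, hsym xn] at this
    linarith
  have b2 : S E0 x0 - S Ej xj = S Ej (S (E0 - Ej) x0 - xj) := by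
    rw [hS.sub, ← hS.add, Nat.add_sub_cancel' hle]
  rw [b2, hmul] at b1
  have hpos : (0 : ℝ) < 2 ^ Ej := by positivity
  have b3 : √(H xn) ≤ 4 / 3 * (2 ^ Ej * √(H xj)) := by nlinarith
  have b4 : 2 ^ Ej * √(H (S (E0 - Ej) x0 - xj)) ≤ 2 ^ Ej * (4 * θ * √(H xj)) := by
    have h6 : 2 * θ * √(H xn) ≤ 2 * θ * (4 / 3 * (2 ^ Ej * √(H xj))) :=
      mul_le_mul_of_nonneg_left b3 (by positivity)
    have h7 : 0 ≤ θ * (2 ^ Ej * √(H xj)) := by have := hN0 xj; positivity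
    nlinarith
  exact le_of_mul_le_mul_left b4 hpos

theorem LowT.eval {K : Type} [Field K] [NumberField K] {W₁ W₂ : Affine K} {co : W₁.Point → K}
    {co' : W₂.Point → K} {D : ℕ} {A : ℝ} {Z : MvPolynomial (Fin 2) K}
    (hZ : ∀ f : MvPolynomial (Fin 2) K, Irreducible f → (∀ e, f.degreeOf e ≤ D) →
      Real.log (PH f) ≤ A → ∃ g, Z = f * g) {z : W₁.Point × W₂.Point} (h : LowT co co' D A z) :
    MvPolynomial.eval (fun i : Fin 2 => if i = 0 then co z.1 else co' z.2) Z = 0 := by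
  obtain ⟨f, hf, hfd, hfz, hfh⟩ := h
  obtain ⟨g, rfl⟩ := hZ f hf hfd hfh
  rw [map_mul, hfz, zero_mul]

theorem gg_eq_zero_left {K : Type} [Field K] [NumberField K] {W₁ W₂ : Affine K}
    (z : W₁.Point × W₂.Point) (h : z.1 = 0) : gg z = 0 := by
  have h1 := gg_nonneg z
  have h2 := gg_le_left z
  have h3 : hx z.1 = 0 := by rw [h]; simp [hx]
  linarith

theorem gg_eq_zero_right {K : Type} [Field K] [NumberField K] {W₁ W₂ : Affine K}
    (z : W₁.Point × W₂.Point) (h : z.2 = 0) : gg z = 0 := by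
  have h1 := gg_nonneg z
  have h2 := gg_le_right z
  have h3 : hx z.2 = 0 := by rw [h]; simp [hx]
  linarith

theorem gcdu (hFac : FACX) (hPrd : PRD) (hS : SEQT) (hP1 : PONET) (hP2 : PTWOT) (hF : FINH)
    (hConv : CONV) : GCDU := by
  intro K _ _ _ W₁ W₂ hW₁ hW₂ Γ₁ Γ₂ hΓ₁ hΓ₂ ε hε
  obtain ⟨t₁, H₁, co₁, cp₁, c₁, hF₁', hPk₁⟩ := hFac K W₁ hW₁ Γ₁ hΓ₁
  obtain ⟨t₂, H₂, co₂, cp₂, c₂, hF₂', hPk₂⟩ := hFac K W₂ hW₂ Γ₂ hΓ₂
  set c₀ := max c₁ c₂ with hc₀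
  have hF₁ : Fac W₁ t₁ H₁ co₁ cp₁ c₀ := hF₁'.mono (le_max_left _ _)
  have hF₂ : Fac W₂ t₂ H₂ co₂ cp₂ c₀ := hF₂'.mono (le_max_right _ _)
  have hc0 : 0 ≤ c₀ := (abs_nonneg _).trans (hF₁.near 0)
  obtain ⟨n, D, CI, θ1, K1, hθ1, h1⟩ := hP1 K W₁ W₂ t₁ t₂ H₁ H₂ co₁ cp₁ co₂ cp₂ c₀ ε hF₁ hF₂ hε
  obtain ⟨D', C', θ2, K2, hθ2, h2⟩ :=
    hP2 K W₁ W₂ t₁ t₂ H₁ H₂ co₁ cp₁ co₂ cp₂ c₀ ε CI D hF₁ hF₂ hε
  obtain ⟨Z1, hZ1, hf1⟩ := hF K D CI
  obtain ⟨Z2, hZ2, hf2⟩ := hF K D' C'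
  obtain ⟨hSc, hpk⟩ := hPrd K W₁ W₂ t₁ t₂ H₁ H₂ co₁ cp₁ co₂ cp₂ c₀ hF₁ hF₂
  obtain ⟨hPk, hstab⟩ := hpk Γ₁ Γ₂ hPk₁ hPk₂
  obtain ⟨Z', hZ', hconv⟩ := hConv K t₁ t₂ (Z1 * Z2) (mul_ne_zero hZ1 hZ2)
  set θ := min θ1 (min (θ2 / 4) (1 / 4)) with hθ
  have hθ0 : 0 < θ := by positivity
  have hθa : θ ≤ θ1 := min_le_left _ _
  have hθb : θ ≤ θ2 / 4 := (min_le_right _ _).trans (min_le_left _ _)
  have hθc : θ ≤ 1 / 4 := (min_le_right _ _).trans (min_le_right _ _)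
  set K0 := max K1 (max K2 16) with hK0
  have hKa : K1 ≤ K0 := le_max_left _ _
  have hKb : K2 ≤ K0 := (le_max_left _ _).trans (le_max_right _ _)
  have hKc : 16 ≤ K0 := (le_max_right _ _).trans (le_max_right _ _)
  obtain ⟨R, hR⟩ := hS _ (Γ₁.prod Γ₂) (nrm H₁ H₂) (sc t₁ t₂) hSc hstab hPk
    (fun z => ε * nrm H₁ H₂ z ≤ gg z ∧
      eval (fun i : Fin 2 => if i = 0 then co₁ z.1 else co₂ z.2) (Z1 * Z2) ≠ 0) n θ K0 hθ0 (by
    intro x e hx0 hxs hxe hex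
    have hxn : ∀ j, 0 ≤ nrm H₁ H₂ (x j) := fun j => hSc.nonneg _
    have hstep : ∀ j < n, nrm H₁ H₂ (x j) ≤ nrm H₁ H₂ (x (j + 1)) := fun j hj => by
      have := hxs j hj
      nlinarith [hxn j]
    have hchain : ∀ j, j ≤ n → nrm H₁ H₂ (x 0) ≤ nrm H₁ H₂ (x j) := by
      intro j
      induction j with
      | zero => intro _; exact le_rfl
      | succ j ih => intro hj; exact (ih (by omega)).trans (hstep j (by omega))
    have hchain' : ∀ j, 0 < j → j ≤ n → K0 * nrm H₁ H₂ (x 0) ≤ nrm H₁ H₂ (x j) := by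
      intro j hj0 hj
      obtain ⟨i, rfl⟩ := Nat.exists_eq_succ_of_ne_zero hj0.ne'
      have e1 := hxs i (by omega)
      have e2 := hchain i (by omega)
      have : K0 * nrm H₁ H₂ (x 0) ≤ K0 * nrm H₁ H₂ (x i) :=
        mul_le_mul_of_nonneg_left e2 (by linarith)
      exact this.trans e1
    have hx0pos : 0 < nrm H₁ H₂ (x 0) := by linarith
    have hnpos : 0 < nrm H₁ H₂ (x n) := lt_of_lt_of_le hx0pos (hchain n le_rfl)
    obtain ⟨j, hj, hlow⟩ := h1 x e (hKa.trans hx0)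
      (fun j hj => (mul_le_mul_of_nonneg_right hKa (hxn j)).trans (hxs j hj))
      (fun j hj => (hxe j hj).trans (mul_le_mul_of_nonneg_right
        (pow_le_pow_left₀ hθ0.le hθa 2) hnpos.le)) (fun j hj => (hex j hj).1)
    rcases Nat.eq_zero_or_pos j with rfl | hj0
    · rw [div_self hx0pos.ne', mul_one] at hlow
      refine (hex 0 (Nat.zero_le _)).2 ?_
      rw [map_mul, LowT.eval hf1 hlow, zero_mul]
    · -- part 2
      have hsq : ∀ z w : W₁.Point × W₂.Point, ∀ t : ℝ, 0 ≤ t →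
          nrm H₁ H₂ z ≤ t ^ 2 * nrm H₁ H₂ w → √(nrm H₁ H₂ z) ≤ t * √(nrm H₁ H₂ w) := by
        intro z w t ht h
        have := Real.sqrt_le_sqrt h
        rw [Real.sqrt_mul (by positivity), Real.sqrt_sq ht] at this
        exact this
      let E : ℕ → ℕ := fun j => if j = n then 0 else e j
      have hE : ∀ j ≤ n, √(nrm H₁ H₂ (sc t₁ t₂ (E j) (x j) - x n)) ≤ θ * √(nrm H₁ H₂ (x n)) := by
        intro j hj
        by_cases hjn : j = n
        · subst hjn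
          have h0 : nrm H₁ H₂ (0 : W₁.Point × W₂.Point) = 0 := hSc.H_zero
          simp only [E, if_true, hSc.zero, sub_self, h0, Real.sqrt_zero]
          positivity
        · have := hxe j (lt_of_le_of_ne hj hjn)
          simp only [E, if_neg hjn]
          exact hsq _ _ _ hθ0.le this
      have h4 : 4 * √(nrm H₁ H₂ (x 0)) ≤ √(nrm H₁ H₂ (x j)) := by
        have h5 : nrm H₁ H₂ (x 0) ≤ (1 / 4) ^ 2 * nrm H₁ H₂ (x j) := by
          have := hchain' j hj0 hj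
          nlinarith
        have := hsq _ _ (1 / 4) (by norm_num) h5
        linarith
      have hNn : 0 < √(nrm H₁ H₂ (x n)) := Real.sqrt_pos.2 hnpos
      obtain ⟨hle, hnear⟩ := near_stepT hSc hθ0 hθc hNn
        (hE 0 (Nat.zero_le _)) (hE j hj) h4
      have hnear' : nrm H₁ H₂ (sc t₁ t₂ (E 0 - E j) (x 0) - x j) ≤ θ2 ^ 2 * nrm H₁ H₂ (x j) := by
        have h6 : √(nrm H₁ H₂ (sc t₁ t₂ (E 0 - E j) (x 0) - x j)) ≤ θ2 * √(nrm H₁ H₂ (x j)) := by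
          refine hnear.trans (mul_le_mul_of_nonneg_right ?_ (Real.sqrt_nonneg _))
          linarith
        have h7 := pow_le_pow_left₀ (Real.sqrt_nonneg _) h6 2
        rw [mul_pow, Real.sq_sqrt (hSc.nonneg _), Real.sq_sqrt (hSc.nonneg _)] at h7
        exact h7
      have hlow' := h2 (x 0) (x j) (E 0 - E j) (hKb.trans hx0)
        ((mul_le_mul_of_nonneg_right hKb hx0pos.le).trans (hchain' j hj0 hj)) hnear'
        (hex 0 (Nat.zero_le _)).1 (hex j hj).1 hlow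
      refine (hex 0 (Nat.zero_le _)).2 ?_
      rw [map_mul, LowT.eval hf2 hlow', mul_zero])
  refine ⟨Z', |R| + c₀ + 2 * ε * c₀, hZ', fun z hz1 hz2 hz => ?_⟩
  have hn1 := abs_le.1 (hF₁.near z.1)
  have hn2 := abs_le.1 (hF₂.near z.2)
  have hg1 : gg z ≤ hx z.1 := gg_le_left z
  have hh0 : 0 ≤ hh z := hh_nonneg z
  have hq2 := hF₂.nonneg z.2
  have hhz : hh z = hx z.1 + hx z.2 := rfl
  have hnz : nrm H₁ H₂ z = H₁ z.1 + H₂ z.2 := rfl
  have e0 : 0 ≤ |R| + c₀ + 2 * ε * c₀ := by positivity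
  have e1 : 0 ≤ ε * hh z := by positivity
  by_cases hz10 : z.1 = 0
  · rw [gg_eq_zero_left z hz10]; linarith
  by_cases hz20 : z.2 = 0
  · rw [gg_eq_zero_right z hz20]; linarith
  have hzz : eval (fun i : Fin 2 => if i = 0 then co₁ z.1 else co₂ z.2) (Z1 * Z2) ≠ 0 := by
    intro h0
    have h3 := hconv (co₁ z.1) (co₂ z.2) (fun ht => (((hF₁.gm ht).2.2.1) z.1 hz10).1)
      (fun ht => (((hF₂.gm ht).2.2.1) z.2 hz20).1) h0
    apply hz
    have e1 : (if t₁ = true then co₁ z.1 / (co₁ z.1 - 1) ^ 2 else co₁ z.1) = xc z.1 := by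
      cases ht : t₁ with
      | true => rw [if_pos rfl]; exact (((hF₁.gm ht).2.2.1) z.1 hz10).2.symm
      | false => rw [if_neg Bool.false_ne_true]; exact ((hF₁.ell ht).2 z.1).1
    have e2 : (if t₂ = true then co₂ z.2 / (co₂ z.2 - 1) ^ 2 else co₂ z.2) = xc z.2 := by
      cases ht : t₂ with
      | true => rw [if_pos rfl]; exact (((hF₂.gm ht).2.2.1) z.2 hz20).2.symm
      | false => rw [if_neg Bool.false_ne_true]; exact ((hF₂.ell ht).2 z.2).1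
    rw [e1, e2] at h3
    exact h3
  by_cases hE : ε * nrm H₁ H₂ z ≤ gg z
  · have := hR z (AddSubgroup.mem_prod.2 ⟨hz1, hz2⟩) ⟨hE, hzz⟩
    have hRR := le_abs_self R
    have e2 : 0 ≤ 2 * ε * c₀ := by positivity
    linarith [hn1.1]
  · rw [not_le] at hE
    have hRR := abs_nonneg R
    have e3 : ε * nrm H₁ H₂ z ≤ ε * (hh z + 2 * c₀) := by
      refine mul_le_mul_of_nonneg_left ?_ hε.le
      linarith [hn1.2, hn2.2]
    have e4 : ε * (hh z + 2 * c₀) = ε * hh z + 2 * ε * c₀ := by ring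
    linarith

end

end Pool.Agent.Helper68.SG2
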