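import Pool.Agent.Helper68.SG2.Defs

/-!
# Project SG, stage 2, module C: the auxiliary functions (part 1 and part 2)

The proofs are those of `Pool/Agent/Helper76/SGC/Goals.lean` (part 1) and `Pool/Agent/Helper77/SGC/Goals.lean` (part 2), with
`sh` replaced by `S`; the landed proofs (`Pool/Agent/*/SGC*/`) can be copied and adapted.  All goals are independent (named goals may be
hypotheses).  `q = 4 ^ e (h / 2)`.
-/

set_option autoImplicit false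

open MvPolynomial

namespace Pool.Agent.Helper68.SG2

open WeierstrassCurve Height
open Pool.Agent.Helper29.BL Pool.Agent.Helper92.Ru Pool.Agent.Helper42.SG
open Pool.Agent.Helper76.SGC (hz ho SPL NFB)
open Pool.Agent.Helper77.SGC (N0 MON HOUS SCAL SIGR)

noncomputable section

/-- **ARRT** (the arrays exist). Hypothesis allowed: ECOEF.
PROOF. Let `h < 2n`, `i < q`, `m ≤ M` (for `i ≥ q` or `m > M` put `S = 0`).
CURVE (`T (h % 2) = false`): ECOEF for `W (h % 2)` (see `Pool.Agent.Helper77.SGC.exists_arr` in `Helper77/SGC/Main.lean`: arrays `G l m μ i g`)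
and `S h l μ j g i m := if i ≤ j then G l m μ (j - i) g else 0` (`= sh`): `X^i (L_1)^(M-m) (L_2)^m = ∑ G(μ, i', g) η^μ X^(i+i') X_0^g`, `j = i + i'`,
`i + i' ≤ q - 1 + 2 q M ≤ N0`; `j + 2μ = i + (i' + 2μ) ≤ q + 2qM = N0`. `η = Ψ h * Ψ (2n + h % 2)`, `η² = Bf Bf` by `OnT` (`(2n + h%2) % 2 = h % 2`).
`G_m`, law `false`: `X^(q m + i) = ∑_(j ≤ q m + i) (q m + i).choose j (X - 1)^j`: `S h false μ j g i m := if μ = 0 ∧ g = M - m then (q m + i).choose j else 0`;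
`j ≤ q m + i`, `m = M - g`, so `j + q g ≤ q M + i < q (M + 1)`. Law `true`: with `g = M - m` the exponent is `E = q (g + 1) - 1 - i`, `Ψ^E = ∑_(j ≤ E) E.choose j (Ψ - 1)^j`,
`j ≤ E < q (g + 1)`. All `j < q (M + 1) ≤ N0 + 1`. `v (choose) ≤ cst v (2^E) ≤ (cst v 2)^(q (M+1))`: `v k ≤ cst v k` for natural numbers `k`.
`B i v := B_i v * cst v 2`, `D i := D_i` (`D_i` from ECOEF for the curve `W i`). -/
def ARRT : Prop :=
  ∀ (K : Type) [Field K] [NumberField K] (T : ℕ → Bool) (W : ℕ → Affine K),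
    ∃ (B : ℕ → AbsoluteValue K ℝ → ℝ) (D : ℕ → ℕ), (∀ i, PlC (B i)) ∧ (∀ i, 0 < D i) ∧
      ∀ (n M : ℕ) (e : ℕ → ℕ), ∃ S : ℕ → Bool → Fin 2 → ℕ → ℕ → ℕ → ℕ → K,
        ArrT T W B D n M e S

/-- the rows of the Siegel system of part 1: `(j, α0, l, l', μ, μ', p, p', g, g')` -/
abbrev RowsT (n M δ k0 : ℕ) (e : ℕ → ℕ) : Type :=
  Σ j : Fin n, {α0 : ∀ h, AxM n M e h // (α0 (hz j)).1.val = 0 ∧ (α0 (hz j)).2.val = 0 ∧
      (α0 (ho j)).1.val = 0 ∧ (α0 (ho j)).2.val = 0} ×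
    (Bool × Bool × Fin 2 × Fin 2 × Fin (2 * k0 * 4 ^ e j.val) × Fin (2 * k0 * 4 ^ e j.val) ×
      Fin (2 * M + δ) × Fin (2 * M + δ))

/-- **CARDT** (the count). As `Helper76.SGC.CARDA`: `N = #Idx`, the number of rows is
`∑_j N / (q_j² (n+1)² n²) * 16 (2 k0 q_j)² (3n)² = 576 k0² n / (n+1)² * N ≤ N / 2`, because `1152 k0² ≤ n`. -/
def CARDT : Prop :=
  ∀ (n k0 : ℕ) (e : ℕ → ℕ), 1152 * (k0 + 2) ^ 2 ≤ n →
    2 * Fintype.card (RowsT n n n k0 e) ≤ Fintype.card (Idx n n n e)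

/-- **SIE1T** (part 1, the conditions can be solved). Hypotheses allowed: CARDT, HOUS.
PROOF. As `Helper76.SGC.SIEA`. `Pool.Agent.Helper68.Ru.siegel` with rows `RowsT n n n k0 e`, unknowns `Idx n n n e`. The row `(j, α0, l, l', μ, μ', p, p', g, g')`
stands for `i = dec (T 0) p`, `i' = dec (T 1) p'`, where `dec true p = p` and `dec false p = N0 n (e j) - 2μ - p` (natural subtraction): `ForbT` implies that `i`, `i'` are of this form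
with `p, p' < 2 k0 q_j`. Entry at the unknown `(α, β)`:
`E sgT (S (2j)) l μ i g (α_2j) β_0 * sgT (S (2j+1)) l' μ' i' g' (α_(2j+1)) β_1` if `α = α0` outside `2j, 2j+1`, and `0` otherwise; `E = (D 0 * D 1)^(q_j (n+1))`. Entries are
integral (`ArrT.int`), of local absolute value `≤ (D 0 D 1 (B 0 v) (B 1 v))^(q_j (n+1))`, so of house `≤ b0^((n+1) sq n e)` (HOUS). All the coefficients of the polynomial
in `CondT` vanish, so the polynomial is `0` and `0 ∣ 0`. -/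
def SIE1T : Prop :=
  ∀ (K : Type) [Field K] [NumberField K] (T : ℕ → Bool) (W : ℕ → Affine K)
    (B : ℕ → AbsoluteValue K ℝ → ℝ) (D : ℕ → ℕ), (∀ i v, 1 ≤ B i v) → (∀ i, 0 < D i) →
    ∀ n k0 : ℕ, 1152 * (k0 + 2) ^ 2 ≤ n →
    ∃ C : ℝ, 0 ≤ C ∧ ∀ (e : ℕ → ℕ) (S : ℕ → Bool → Fin 2 → ℕ → ℕ → ℕ → ℕ → K),
      ArrT T W B D n n e S → ∃ c : Idx n n n e → K, c ≠ 0 ∧ (∀ α, IsIntegral ℤ (c α)) ∧
        (∀ α, NumberField.house (c α) ≤ Real.exp (C * sq n e)) ∧ CondT T n n n k0 0 e S c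

/-- **SIE2T** (part 2, the conditions can be solved). Hypotheses allowed: SCAL, SIGR, HOUS (`Helper77.SGC`).
PROOF. As `Helper77.SGC.SIEC` (landed: `Pool/Agent/Helper77/SGC/SIEC.lean`). `q = 4 ^ e 0`, `n = 1`, `δ = 1` (`β = 0`). Let `r` be from SCAL for `F`, `E = (D 0 * D 1)^(q (M+1))`. Equations: index type
`T' × Fin (2M+1) × Fin (2M+1)`, `T' = Bool × Bool × Fin 2 × Fin 2 × Fin (2 k0 q) × Fin (2 k0 q)`; `t = (l, l', μ, μ', p, p')` stands for `i = dec (T 0) p`, `i' = dec (T 1) p'` (see SIE1T). Unknowns: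
`Idx 1 M 1 e ⊕ T' × Fin (2M+1-D) × Fin (2M+1-D)` (`c` and the coefficients of the quotients `h_t`); equation `(t, g, g')`:
`∑_α c_α E S(..) S(..) - ∑_(a,b) h_t(a,b) r f_(g-a, g'-b) = 0`. Entries integral, of house `≤ exp(C1 q) * PH F^((D+1)^2+1)`.
Rows `16 (2 k0 q)² (2M+1)²`, unknowns `q² (M+1)² + 16 (2 k0 q)² (2M+1-D)²`; unknowns - rows `≥ q² (M+1)² - 64 k0² q² 2 D (2M+1) ≥ q² (M+1)² / 2`
(`256 k0² D (2M+1) ≤ 512 k0² D (M+1) ≤ (M+1)²`; also `D ≤ M`), rows `≤ 256 k0² q² (M+1)² ≤ 512 k0² (unknowns - rows)`: SIGR with `ρ = 512 k0²`. A solution `(c, h) ≠ 0` of house `≤ exp(C (q + log PH F))`; the equations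
say `E * (polynomial of CondT) = r F h_t`, so `F ∣ ..`; if `c = 0` then `r F h_t = 0`, `h = 0`, a contradiction. (In `CondT` with `n = 1` the two updates overwrite everything: `update (update α0 0 x) 1 x' = (x, x')`, so
`α0` is irrelevant and the sum over `x, x', β` is the sum over `Idx 1 M 1 e`.) -/
def SIE2T : Prop :=
  ∀ (K : Type) [Field K] [NumberField K] (T : ℕ → Bool) (W : ℕ → Affine K)
    (B : ℕ → AbsoluteValue K ℝ → ℝ) (D' : ℕ → ℕ), (∀ i v, 1 ≤ B i v) → (∀ i, 0 < D' i) →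
    ∀ D M k0 : ℕ, 1 ≤ k0 → 512 * D * k0 ^ 2 ≤ M → 1 ≤ M →
    ∃ C : ℝ, 0 ≤ C ∧ ∀ (e : ℕ → ℕ) (S : ℕ → Bool → Fin 2 → ℕ → ℕ → ℕ → ℕ → K),
      ArrT T W B D' 1 M e S → ∀ F : MvPolynomial (Fin 2) K, F ≠ 0 → (∀ i, F.degreeOf i ≤ D) →
      ∃ c : Idx 1 M 1 e → K, c ≠ 0 ∧ (∀ α, IsIntegral ℤ (c α)) ∧
        (∀ α, NumberField.house (c α) ≤ Real.exp (C * (4 ^ e 0 + Real.log (PH F)))) ∧
        CondT T 1 M 1 k0 F e S c

/-- **EXPT** (expansion of `P^λ`). No hypotheses.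
PROOF. `ArrT.exp` for every `h < 2n`: `blk h (l_h) (m_h) = ∑_(μ : Fin 2) ∑_(j ≤ N0) bas h μ j ∑_g S X_0^g`. Insert into `PT` and expand the product over `h`
(`Finset.prod_univ_sum`, twice), exchange the sums. Compare `Helper76.SGC.EXPA`. -/
def EXPT : Prop :=
  ∀ (K : Type) [Field K] (T : ℕ → Bool) (W : ℕ → Affine K) (B : ℕ → AbsoluteValue K ℝ → ℝ)
    (D : ℕ → ℕ) (n M δ : ℕ) (e : ℕ → ℕ) (S : ℕ → Bool → Fin 2 → ℕ → ℕ → ℕ → ℕ → K),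
    ArrT T W B D n M e S →
    ∀ (c : Idx n M δ e → K) (A : Type) [CommRing A] [Algebra K A] (X Ψ : ℕ → A),
      OnT T W n X Ψ → ∀ lam : ℕ → Bool,
      PT T (mapW A W) n M δ e (fun α => algebraMap K A (c α)) lam X Ψ =
        ∑ μ : Fin (2 * n) → Fin 2,
          ∑ i ∈ Fintype.piFinset (fun h : Fin (2 * n) => Finset.range (N0 M (e (h.val / 2)) + 1)),
            (∏ h : Fin (2 * n), bas T n lam X Ψ h.val (μ h) (i h)) * BrT n M δ e S c lam X μ i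

/-- **VANT** (a forbidden pair kills the bracket). Hypothesis allowed: SPL.
PROOF. Let `h0 = 2j`, `h1 = 2j + 1`. Exchange the sums over `α.1` and `β = α.2` and apply SPL to the sum over `α.1` (`d0 = d1 = (0, 0)`): the
factors of the `h ≠ h0, h1` depend on `α0` only, so `BrT = ∑_(α0) (∏_(h ≠ h0, h1) ..) * I(α0)`,
`I(α0) = ∑_(x, x', β) c(update .., β) (∑_(g ≤ 2M) S h0 .. X_(2n)^g) X_(2n)^(β_0) (∑_(g' ≤ 2M) S h1 .. X_(2n+1)^(g')) X_(2n+1)^(β_1)`.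
`(∑_(g ≤ 2M) S(g) X^g) X^β = ∑_(g < 2M+δ) sgT(g; β) X^g` (`β < δ`; `S = 0` for `g > 2M` by `ArrT.degG`, `degE`). So `I(α0)` is the value at
`(X_(2n), X_(2n+1))` (`aeval`) of the polynomial of `CondT`, which is `F * (..)`, and `aeval F = 0` (`l = lam (2j)`, `l' = lam (2j+1)`). -/
def VANT : Prop :=
  ∀ (K : Type) [Field K] (T : ℕ → Bool) (W : ℕ → Affine K) (B : ℕ → AbsoluteValue K ℝ → ℝ)
    (D : ℕ → ℕ) (n M δ k0 : ℕ) (F : MvPolynomial (Fin 2) K) (e : ℕ → ℕ)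
    (S : ℕ → Bool → Fin 2 → ℕ → ℕ → ℕ → ℕ → K), ArrT T W B D n M e S →
    ∀ (c : Idx n M δ e → K), CondT T n M δ k0 F e S c →
    ∀ (A : Type) [CommRing A] [Algebra K A] (lam : ℕ → Bool) (X : ℕ → A)
      (μ : Fin (2 * n) → Fin 2) (i : Fin (2 * n) → ℕ) (j : Fin n),
      aeval (fun t : Fin 2 => X (2 * n + t.val)) F = 0 →
      ForbT T M k0 (e j.val) (μ (hz j)) (μ (ho j)) (i (hz j)) (i (ho j)) →
      BrT n M δ e S c lam X μ i = 0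

/-- **BRNT** (norm of the bracket). Hypothesis allowed: NFB.
PROOF. For every `h` the sum over `g ≤ 2M` has norm `≤ cst v (2M+1) * (B (h%2) v)^(q (M+1)) * RfB h`: it is enough to bound every term with `S ≠ 0`.
CURVE: `g + 2μ ≤ 2M`, `N(X_0^g) ≤ a_0^g ≤ a_0^(2M - 2μ)`. `G_m`, law `false` (`a = a h`, `L = L h`, `a^q ≤ L`, `N(X_0^g) ≤ L^g`, `j + q g < q (M+1)`, `g ≤ M`): `L^g a^j ≤ a^(q-1) L^M`: if `j ≤ q - 1` clear
(`L ≥ 1`), otherwise `j ≤ (q - 1) + q (M - g)` and `a^j ≤ a^(q-1) (a^q)^(M-g) ≤ a^(q-1) L^(M-g)`. Law `true` (`N(X_0^g) ≤ (L / a^q)^g`, `j < q (g+1)`): `a^j ≤ a^(q-1) (a^q)^g`, so `(L/a^q)^g a^j ≤ a^(q-1) L^g ≤ a^(q-1) L^M`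
(`L ≥ 1`). The product over `h`, `c_α` (`≤ s`), `∏_t X^(β_t)`, `β_t < δ`, norm `≤ (a (2n) a (2n+1))^δ` (`BndT.ref`). Then the sum over `α`: `cst v (#Idx)`. (`0 ≤ s`: `δ ≥ 1`, so `Idx` is not empty.) -/
def BRNT : Prop :=
  ∀ (K : Type) [Field K] (T : ℕ → Bool) (W : ℕ → Affine K) (B : ℕ → AbsoluteValue K ℝ → ℝ)
    (D : ℕ → ℕ) (n M δ : ℕ) (e : ℕ → ℕ) (S : ℕ → Bool → Fin 2 → ℕ → ℕ → ℕ → ℕ → K),
    ArrT T W B D n M e S → (∀ i v, 1 ≤ B i v) → 1 ≤ n → 1 ≤ δ →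
    ∀ (c : Idx n M δ e → K) (v : AbsoluteValue K ℝ) (A : Type) [CommRing A] [Algebra K A]
      (N : A → ℝ → Prop), NFr v N → ∀ (X Ψ : ℕ → A) (a G L : ℕ → ℝ) (s b : ℝ) (lam : ℕ → Bool),
      BndT T n e lam N X Ψ a G L b → (∀ α, v (c α) ≤ s) →
      ∀ (μ : Fin (2 * n) → Fin 2) (i : Fin (2 * n) → ℕ),
      N (BrT n M δ e S c lam X μ i)
        (cst v ((Fintype.card (Idx n M δ e) : ℝ) * (2 * M + 1) ^ (2 * n)) * s *
          (∏ h : Fin (2 * n), (B (h.val % 2) v) ^ (4 ^ e (h.val / 2) * (M + 1))) *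
          ((∏ h : Fin (2 * n), RfB T n M e a L h.val (μ h) (i h)) *
            (a (2 * n) * a (2 * n + 1)) ^ δ))

/-- **MONT** (two variables, one block). No hypotheses.
PROOF. Square both sides: `(x y)² = g^(-d) g'^(-d')` with `g, g' ≥ 1` and `2k ≤ d + d'`, `m = min g g' ≥ 1`: `g^(-d) g'^(-d') ≤ m^(-(d + d')) ≤ m^(-2k) = (m^(-k))²`. -/
def MONT : Prop :=
  ∀ (g g' x y : ℝ) (d d' k : ℕ), 1 ≤ g → 1 ≤ g' → 0 ≤ x → 0 ≤ y → 2 * k ≤ d + d' →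
    x ^ 2 * g ^ d = 1 → y ^ 2 * g' ^ d' = 1 → x * y * (min g g') ^ k ≤ 1

/-- **PRNT** (inequality between real numbers). Hypothesis allowed: MONT.
PROOF. For every `h`: `basB h * RfB h = b^(β_h) * cost h * x_h`, where for `G_m` (`j = i h`): `(b a / G)^j * a^(q-1) L^M / a^j = b^j a^(q-1) L^M G^(-j)`, `β_h = j ≤ q (M + 1)`, `x_h = G^(-j)`, `x_h² gn^j = 1`; for a curve
`(b a² b a_0²)^μ a^j a_0^(2M-2μ) = b^(2μ) a^(j+2μ) a_0^(2M)`, `β_h = 2μ ≤ 2`, `x_h = a^(-p)`, `p = N0 - (j + 2μ)`, `x_h² gn^(2p) = 1` (`μ ≤ 1 ≤ M` for the natural subtraction). So `β_h ≤ q (M + 3)` and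
`∏_h b^(β_h) ≤ b^(2 (M+3) sq n e)`. Write the product over `h : Fin (2n)` as a product over `j < n` of the factors `2j`, `2j+1` (induction on `n`); MONT with `d = drop (T 0) ..`, `d' = drop (T 1) ..`, `k = k0 q_j` (not
forbidden: `2 k0 q_j ≤ d + d'`): `x_(2j) x_(2j+1) ≤ 1 / min(gn, gn')^(k0 q_j)`. -/
def PRNT : Prop :=
  ∀ (T : ℕ → Bool) (n M k0 : ℕ) (e : ℕ → ℕ) (a G L : ℕ → ℝ) (b : ℝ) (μ : Fin (2 * n) → Fin 2)
    (i : Fin (2 * n) → ℕ), 1 ≤ n → 1 ≤ M → (∀ h < 2 * n + 2, 1 ≤ a h) → (∀ h < 2 * n, 1 ≤ G h) →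
    (∀ h < 2 * n, T (h % 2) = true → 1 ≤ L h) → 1 ≤ b →
    (∀ h : Fin (2 * n), T (h.val % 2) = false → i h + 2 * (μ h).val ≤ N0 M (e (h.val / 2))) →
    (∀ h : Fin (2 * n), T (h.val % 2) = true → i h ≤ 4 ^ e (h.val / 2) * (M + 1)) →
    (∀ j : Fin n, ¬ ForbT T M k0 (e j.val) (μ (hz j)) (μ (ho j)) (i (hz j)) (i (ho j))) →
    (∏ h : Fin (2 * n), basB T n a G b h.val (μ h) (i h)) *
        (∏ h : Fin (2 * n), RfB T n M e a L h.val (μ h) (i h)) ≤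
      b ^ (2 * (M + 3) * sq n e) *
        ∏ j ∈ Finset.range n, (cost T n M e a L (2 * j) * cost T n M e a L (2 * j + 1) /
          (min (gn T a G (2 * j)) (gn T a G (2 * j + 1))) ^ (k0 * 4 ^ e j))

/-- **CNTT** (the number of terms). As `Helper76.SGC.CNTA` with general `M`, `δ`:
`N0 M e + 1 ≤ 4^e (2M + 2)`, `#Idx = (∏_h 4^(e (h/2)) (M+1)) δ²`; the number is
`≤ 4^n δ² (2M+1)^(2n) ((2M+2)(M+1))^(2n) ∏_h (4^(e (h/2)))²`, `∏_(h < 2n) (4^(e (h/2)))² = ∏_(j<n) (4^(e j))^4`,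
`(4^e)^4 = 256^e ≤ 256^(4^e)`, `sq n e ≥ n ≥ 1`. -/
def CNTT : Prop :=
  ∀ n M δ : ℕ, 1 ≤ n → ∃ C : ℝ, 1 ≤ C ∧ ∀ e : ℕ → ℕ,
    (Fintype.card (Fin (2 * n) → Fin 2) : ℝ) *
      ((Fintype.piFinset (fun h : Fin (2 * n) =>
        Finset.range (N0 M (e (h.val / 2)) + 1))).card : ℝ) *
      ((Fintype.card (Idx n M δ e) : ℝ) * (2 * M + 1) ^ (2 * n)) ≤ C ^ sq n e

/-- **KEYIT** (the key inequality). Hypotheses allowed: EXPT, VANT, NFB, BRNT, PRNT, CNTT.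
PROOF. EXPT: `P^λ = ∑_μ ∑_i (∏_h bas) BrT`. If for some curve index `h` `i_h + 2μ_h > N0`, or for some `G_m` index `h` `i_h > q (M + 1)` (`S ≠ 0` implies `i_h < q (M+1)` for both laws, `g ≤ M`), then all the `S` of this `h` vanish and `BrT = 0`; if some
pair is forbidden then `BrT = 0` by VANT; otherwise BRNT, `N(bas h) ≤ basB h` (`BndT`, NFB) and PRNT: the norm of the term is
`≤ cst v (#Idx (2M+1)^(2n)) s ∏_h (B (h%2) v)^(q (M+1)) b^(2(M+3) sq) keyT`. Sum with `cst v (#μ * #i)`; `cst v (..) ≤ (cst v C)^(sq n e)` (CNTT),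
`∏_h (B (h%2) v)^(q (M+1)) = (B 0 v * B 1 v)^((M+1) sq n e)`. `B' v = cst v C * (B 0 v * B 1 v)^(M+1)`. Compare `Helper76.SGC.KEYA`. -/
def KEYIT : Prop :=
  ∀ (K : Type) [Field K] [NumberField K] (T : ℕ → Bool) (W : ℕ → Affine K)
    (B : ℕ → AbsoluteValue K ℝ → ℝ) (D : ℕ → ℕ) (n M δ k0 : ℕ), (∀ i, PlC (B i)) → 1 ≤ n →
    1 ≤ M → 1 ≤ δ → ∃ B' : AbsoluteValue K ℝ → ℝ, PlC B' ∧
      ∀ (F : MvPolynomial (Fin 2) K) (e : ℕ → ℕ)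
        (S : ℕ → Bool → Fin 2 → ℕ → ℕ → ℕ → ℕ → K), ArrT T W B D n M e S →
      ∀ c : Idx n M δ e → K, CondT T n M δ k0 F e S c → KeyI T W n M δ k0 F e c B'

/-- **AUX1T**: the auxiliary function of part 1. From ARRT, SIE1T, KEYIT. -/
def AUX1T : Prop :=
  ∀ (K : Type) [Field K] [NumberField K] (T : ℕ → Bool) (W : ℕ → Affine K) (n k0 : ℕ),
    1152 * (k0 + 2) ^ 2 ≤ n →
    ∃ (C : ℝ) (B : AbsoluteValue K ℝ → ℝ), PlC B ∧ 0 ≤ C ∧ ∀ e : ℕ → ℕ,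
      ∃ c : Idx n n n e → K, c ≠ 0 ∧ (∀ α, IsIntegral ℤ (c α)) ∧
        (∀ α, NumberField.house (c α) ≤ Real.exp (C * sq n e)) ∧
        KeyI T W n n n k0 0 e c B

/-- **AUX2T**: the auxiliary function of part 2. From ARRT, SIE2T, KEYIT. -/
def AUX2T : Prop :=
  ∀ (K : Type) [Field K] [NumberField K] (T : ℕ → Bool) (W : ℕ → Affine K) (k0 D : ℕ), 1 ≤ k0 →
    ∃ (M : ℕ) (C : ℝ) (B : AbsoluteValue K ℝ → ℝ), 1 ≤ M ∧ PlC B ∧ 0 ≤ C ∧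
    ∀ (F : MvPolynomial (Fin 2) K) (e : ℕ → ℕ), F ≠ 0 → (∀ i, F.degreeOf i ≤ D) →
      ∃ c : Idx 1 M 1 e → K, c ≠ 0 ∧ (∀ α, IsIntegral ℤ (c α)) ∧
        (∀ α, NumberField.house (c α) ≤ Real.exp (C * (4 ^ e 0 + Real.log (PH F)))) ∧
        KeyI T W 1 M 1 k0 F e c B

theorem aux1t (hA : ARRT) (hS : SIE1T) (hK : KEYIT) : AUX1T := by
  intro K _ _ T W n k0 hn
  have hn1 : 1 ≤ n := by
    have : 0 < 1152 * (k0 + 2) ^ 2 := by positivity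
    omega
  obtain ⟨B, D, hB, hD, hA⟩ := hA K T W
  obtain ⟨C, hC, hS⟩ := hS K T W B D (fun i v => (hB i).one_le v) hD n k0 hn
  obtain ⟨B', hB', hK⟩ := hK K T W B D n n n k0 hB hn1 hn1 hn1
  refine ⟨C, B', hB', hC, fun e => ?_⟩
  obtain ⟨S, hS'⟩ := hA n n e
  obtain ⟨c, hc0, hci, hch, hcc⟩ := hS e S hS'
  exact ⟨c, hc0, hci, hch, hK 0 e S hS' c hcc⟩

theorem aux2t (hA : ARRT) (hS : SIE2T) (hK : KEYIT) : AUX2T := by
  intro K _ _ T W k0 D hk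
  obtain ⟨B, D', hB, hD', hA⟩ := hA K T W
  obtain ⟨C, hC, hS⟩ := hS K T W B D' (fun i v => (hB i).one_le v) hD' D
    (512 * D * k0 ^ 2 + 1) k0 hk (Nat.le_succ _) (Nat.succ_pos _)
  obtain ⟨B', hB', hK⟩ := hK K T W B D' 1 (512 * D * k0 ^ 2 + 1) 1 k0 hB le_rfl
    (Nat.succ_pos _) le_rfl
  refine ⟨512 * D * k0 ^ 2 + 1, C, B', Nat.succ_pos _, hB', hC, fun F e hF hFD => ?_⟩
  obtain ⟨S, hS'⟩ := hA 1 (512 * D * k0 ^ 2 + 1) e
  obtain ⟨c, hc0, hci, hch, hcc⟩ := hS e S hS' F hF hFD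
  exact ⟨c, hc0, hci, hch, hK F e S hS' c hcc⟩

end

end Pool.Agent.Helper68.SG2
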