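import Pool.Agent.Helper68.SG2.Hand
import Pool.Agent.Helper68.SG2.AsmP1
import Pool.Agent.Helper11.SGT.AsmP4
import Pool.Agent.Helper90.SG2.ARRT
import Pool.Agent.Helper45.SG2.CARDT
import Pool.Agent.Helper45.SG2.CNTT
import Pool.Agent.Helper55.SG2.SIE1T
import Pool.Agent.Helper98.SG2.SIE2T
import Pool.Agent.Helper20.SG2.EXPT
import Pool.Agent.Helper54.SG2.VANT
import Pool.Agent.Helper87.SG2.BRNT
import Pool.Agent.Helper14.SG2.MONT
import Pool.Agent.Helper22.SG2.PRNT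
import Pool.Agent.Helper36.SG2.KEYIT
import Pool.Agent.Helper3.SG2.TAYT
import Pool.Agent.Helper65.SG2.TAYZT
import Pool.Agent.Helper60.SG2.NZFT
import Pool.Agent.Helper92.SG2.NQAT
import Pool.Agent.Helper1.SG2.NQBT
import Pool.Agent.Helper41.SG2.NQWT
import Pool.Agent.Helper43.SG2.NQNT
import Pool.Agent.Helper99.SG2.NQET
import Pool.Agent.Helper66.SG2.NQVT
import Pool.Agent.Helper4.SG2.NQT
import Pool.Agent.Helper26.SG2.QIXT
import Pool.Agent.Helper26.SG2.QIX2T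
import Pool.Agent.Helper71.SG2.LAWCT
import Pool.Agent.Helper31.SG2.BNDX
import Pool.Agent.Helper56.SG2.LOCT
import Pool.Agent.Helper46.SG2.GLOBT
import Pool.Agent.Helper57.SG2.FACX
import Pool.Agent.Helper25.SG2.PRD
import Pool.Agent.Helper49.SG2.SEQT
import Pool.Agent.Helper45.SG2.FND
import Pool.Agent.Helper73.SG2.LAW1
import Pool.Agent.Helper91.SG2.GEO2T
import Pool.Agent.Helper2.SG2.CONV
import Pool.Agent.Helper76.SGC1.Main
import Pool.Agent.Helper65.SG.All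
import Pool.Agent.Helper12.SGB.All
import Pool.Agent.Helper66.SG.Main
import Pool.Agent.Helper66.SG.IXR
import Pool.Agent.Helper77.SGC.Main
import Pool.Agent.Helper40.SGE.MINA
import Pool.Agent.Helper39.SGE.HTL
import Pool.Agent.Helper31.SGE.CVAL
import Pool.Agent.Helper31.SGT.MINC
import Pool.Agent.Helper80.SGE.NUM
import Pool.Agent.Helper87.SGE.BLK
import Pool.Agent.Helper35.SG2.NUM2
import Pool.Agent.Helper40.SG2.DEG1
import Pool.Agent.Helper35.SGM.FINH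
import Pool.Agent.Helper29.BL.AsmG

/-!
# Project SG, stage 2: the theorem `GCDU` (unconditional)
-/

set_option autoImplicit false

namespace Pool.Agent.Helper68.SG2

open Pool.Agent.Helper42.SG

theorem th_KEYIT : KEYIT :=
  Pool.Agent.Helper36.SG2.t_KEYIT Pool.Agent.Helper20.SG2.t_EXPT
    (Pool.Agent.Helper54.SG2.t_VANT Pool.Agent.Helper35.SGC1.spl)
    Pool.Agent.Helper35.SGC1.nfb
    (Pool.Agent.Helper87.SG2.t_BRNT Pool.Agent.Helper35.SGC1.nfb)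
    (Pool.Agent.Helper22.SG2.t_PRNT Pool.Agent.Helper14.SG2.t_MONT)
    Pool.Agent.Helper45.SG2.t_CNTT

theorem th_AUX1T : AUX1T :=
  aux1t Pool.Agent.Helper90.SG2.t_ARRT
    (Pool.Agent.Helper55.SG2.t_SIE1T Pool.Agent.Helper45.SG2.t_CARDT
      Pool.Agent.Helper24.SGC.hous) th_KEYIT

theorem th_AUX2T : AUX2T :=
  aux2t Pool.Agent.Helper90.SG2.t_ARRT
    (Pool.Agent.Helper98.SG2.t_SIE2T Pool.Agent.Helper86.SGC.scal
      Pool.Agent.Helper39.SGC.sigr Pool.Agent.Helper24.SGC.hous) th_KEYIT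

theorem th_NQT : NQT :=
  Pool.Agent.Helper4.SG2.t_NQT (Pool.Agent.Helper60.SG2.t_NZFT Pool.Agent.Helper65.SG.th_NZV)
    Pool.Agent.Helper65.SG.th_FRPO
    (Pool.Agent.Helper1.SG2.t_NQBT Pool.Agent.Helper65.SG.th_FRPO
      Pool.Agent.Helper92.SG2.t_NQAT)
    Pool.Agent.Helper41.SG2.t_NQWT Pool.Agent.Helper43.SG2.t_NQNT
    (Pool.Agent.Helper99.SG2.t_NQET Pool.Agent.Helper43.SG2.t_NQNT)
    Pool.Agent.Helper66.SG2.t_NQVT
    Pool.Agent.Helper40.SGT.t_NQD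
    (Pool.Agent.Helper2.SGT.t_NQR Pool.Agent.Helper65.SG.th_FRPO) Pool.Agent.Helper71.SGT.t_NQH

theorem th_LAWCT : LAWCT :=
  Pool.Agent.Helper71.SG2.t_LAWCT Pool.Agent.Helper12.SGB.th_RPOL
    Pool.Agent.Helper31.SGT.t_MINC

theorem th_LOCT : LOCT :=
  Pool.Agent.Helper56.SG2.t_LOCT Pool.Agent.Helper65.SG.th_FRPS
    (Pool.Agent.Helper31.SG2.t_BNDX Pool.Agent.Helper65.SG.th_FRPS)

theorem th_LAW1 : LAW1 :=
  Pool.Agent.Helper73.SG2.t_LAW1 Pool.Agent.Helper12.SGB.th_ELAW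
    Pool.Agent.Helper12.SGB.th_ELOC

theorem th_FND : FND :=
  Pool.Agent.Helper45.SG2.t_FND Pool.Agent.Helper12.SGB.th_EDUP
    Pool.Agent.Helper12.SGB.th_EUP

theorem th_GLOBT : GLOBT := Pool.Agent.Helper46.SG2.t_GLOBT Pool.Agent.Helper39.SGE.htl

theorem th_GEO2T : Pool.Agent.Helper68.SG2.GEO2T :=
  Pool.Agent.Helper91.SG2.t_GEO2T th_FND Pool.Agent.Helper25.SG2.t_PRD

theorem th_FACX : FACX :=
  Pool.Agent.Helper57.SG2.t_FACX Pool.Agent.Helper29.BL.th_ghe Pool.Agent.Helper29.BL.th_ghn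
    Pool.Agent.Helper29.BL.th_niso

/-- **Theorem P1** for mixed factors. -/
theorem th_PONET : PONET :=
  ponet th_AUX1T th_NQT Pool.Agent.Helper26.SG2.t_QIXT Pool.Agent.Helper76.SGA.blockRoth
    Pool.Agent.Helper3.SG2.t_TAYT th_LAWCT th_LOCT th_LAW1 th_FND Pool.Agent.Helper25.SG2.t_PRD
    th_GLOBT Pool.Agent.Helper80.SGE.num Pool.Agent.Helper87.SGE.blk
    Pool.Agent.Helper31.SGE.cval Pool.Agent.Helper40.SGE.mina

/-- **Theorem P2** for mixed factors. -/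
theorem th_PTWOT : PTWOT :=
  Pool.Agent.Helper11.SGT.ptwot_of th_AUX2T th_NQT Pool.Agent.Helper66.SG.resf
    Pool.Agent.Helper66.SG.t_ixr Pool.Agent.Helper66.SG.zer Pool.Agent.Helper65.SG2.t_TAYZT
    Pool.Agent.Helper26.SG2.t_QIX2T Pool.Agent.Helper40.SGE.mina th_LAWCT th_LOCT th_LAW1
    th_FND th_GLOBT Pool.Agent.Helper31.SGE.cval Pool.Agent.Helper35.SG2.t_NUM2 th_GEO2T
    Pool.Agent.Helper40.SG2.t_DEG1

/-- The gcd theorem for two factors, each an elliptic curve or a multiplicative group. -/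
theorem th_GCDU : GCDU :=
  gcdu th_FACX Pool.Agent.Helper25.SG2.t_PRD Pool.Agent.Helper49.SG2.t_SEQT th_PONET th_PTWOT
    Pool.Agent.Helper35.SGM.t_FINH Pool.Agent.Helper2.SG2.t_CONV

end Pool.Agent.Helper68.SG2
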